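import Pool.Agent.K3h5.FD.Choice

/-!
# The Cantor construction
-/

open MeasureTheory Set Filter Topology

namespace Pool.Agent.K3h5.FD

/-- normalised exponential sum of a finite family -/
noncomputable def PP {N n : ℕ} (B : (Fin n → Fin N) → ℝ) (ξ : ℝ) : ℂ :=
  (∑ v, ee (ξ * B v)) / (N : ℂ) ^ n

lemma sum_snoc {N n : ℕ} (F : (Fin (n + 1) → Fin N) → ℂ) :
    ∑ v, F v = ∑ u : Fin n → Fin N, ∑ j : Fin N, F (Fin.snoc (α := fun _ => Fin N) u j) := by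
  rw [← (Fin.snocEquiv (fun _ : Fin (n + 1) => Fin N)).sum_comp, Fintype.sum_prod_type,
    Finset.sum_comm]
  rfl

lemma card_mul_pow {N n : ℕ} : (Fintype.card (Fin n → Fin N) : ℝ) = (N : ℝ) ^ n := by
  simp

/-- the constant in the recursion -/
noncomputable def LL (ρ θ : ℝ) (A : ℕ) : ℝ := 10 + 2 * (Real.log 16 + Real.log (ρ⁻¹ ^ A / θ))

lemma LL_nonneg {ρ θ : ℝ} (hρ0 : 0 < ρ) (hρ : ρ ≤ 1 / 3) (hθ0 : 0 < θ) (hθ1 : θ ≤ 1) (A : ℕ) :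
    0 ≤ LL ρ θ A := by
  unfold LL
  have h1 : 0 ≤ Real.log 16 := Real.log_nonneg (by norm_num)
  have h2 : 0 ≤ Real.log (ρ⁻¹ ^ A / θ) := by
    apply Real.log_nonneg
    rw [le_div_iff₀ hθ0, one_mul]
    refine hθ1.trans (one_le_pow₀ ?_)
    exact (one_le_inv₀ hρ0).2 (by linarith)
  linarith

theorem cantor_step {N : ℕ} (x : Fin N → ℝ) (hx : ∀ j, x j ∈ Icc (0 : ℝ) 1) {ρ θ : ℝ}
    (hρ0 : 0 < ρ) (hρ : ρ ≤ 1 / 3) (hθ0 : 0 < θ) (hθ1 : θ ≤ 1) (hN : 16 ≤ N * θ ^ 2) (A : ℕ)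
    (n : ℕ) (B : (Fin n → Fin N) → ℝ) (hB : ∀ v, 0 ≤ B v ∧ B v ≤ 2 - 2 * ρ ^ n) :
    ∃ B' : (Fin (n + 1) → Fin N) → ℝ,
      (∀ v, 0 ≤ B' v - B (Fin.init v) - ρ ^ n * x (v (Fin.last n)) ∧
        B' v - B (Fin.init v) - ρ ^ n * x (v (Fin.last n)) ≤ ρ ^ (n + 1)) ∧
      ∀ ξ : ℝ, |ξ| ≤ ρ⁻¹ ^ (A * (n + 1)) →
        ‖PP B' ξ‖ ≤ ‖phi (ξ * ρ ^ (n + 1))‖ * ‖PP B ξ‖ + LL ρ θ A * θ ^ (n + 1) := by
  have hN0 : (0 : ℝ) < N := by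
    by_contra h
    have : (N : ℝ) * θ ^ 2 ≤ 0 := mul_nonpos_of_nonpos_of_nonneg (not_lt.1 h) (by positivity)
    linarith
  have hρi : 1 ≤ ρ⁻¹ := (one_le_inv₀ hρ0).2 (by linarith)
  set β : (Fin (n + 1) → Fin N) → ℝ := fun v => B (Fin.init v) + ρ ^ n * x (v (Fin.last n)) with hβ
  have hρn : 0 < ρ ^ n := by positivity
  have hρn1 : ρ ^ n ≤ 1 := pow_le_one₀ hρ0.le (by linarith)
  have hβ2 : ∀ v, |β v| ≤ 2 := by
    intro v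
    have h1 := hB (Fin.init v)
    have h2 := hx (v (Fin.last n))
    have h3 : 0 ≤ ρ ^ n * x (v (Fin.last n)) := mul_nonneg hρn.le h2.1
    have h4 : ρ ^ n * x (v (Fin.last n)) ≤ ρ ^ n := mul_le_of_le_one_right hρn.le h2.2
    rw [abs_of_nonneg (by simp only [hβ]; linarith)]
    simp only [hβ]
    linarith
  have hw0 : 0 < θ ^ (n + 1) := by positivity
  have hw1 : θ ^ (n + 1) ≤ 1 := pow_le_one₀ hθ0.le hθ1
  have hR : 1 ≤ ρ⁻¹ ^ (A * (n + 1)) := one_le_pow₀ hρi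
  obtain ⟨τ, hτ, hdev⟩ := level β hβ2 (r := ρ ^ (n + 1)) (by positivity)
    (pow_le_one₀ hρ0.le (by linarith)) hR hw0 hw1
  refine ⟨fun v => β v + ρ ^ (n + 1) * τ v, ?_, ?_⟩
  · intro v
    have h1 := hτ v
    have h2 : 0 < ρ ^ (n + 1) := by positivity
    simp only [hβ]
    constructor
    · have := mul_nonneg h2.le h1.1
      linarith
    · have := mul_le_of_le_one_right h2.le h1.2
      linarith
  · intro ξ hξ
    have h1 := hdev ξ hξ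
    rw [card_mul_pow] at h1
    have hsum : ∑ v, ee (ξ * (β v + ρ ^ (n + 1) * τ v)) =
        dev β τ (ρ ^ (n + 1)) ξ + phi (ξ * ρ ^ (n + 1)) * ∑ v, ee (ξ * β v) := by
      unfold dev
      rw [Finset.mul_sum, ← Finset.sum_add_distrib]
      refine Finset.sum_congr rfl fun v _ => ?_
      rw [mul_add, ee_add, ← mul_assoc ξ]
      ring
    have hprod : ∑ v, ee (ξ * β v) = (∑ u, ee (ξ * B u)) * ∑ j, ee (ξ * (ρ ^ n * x j)) := by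
      rw [sum_snoc, Finset.sum_mul]
      refine Finset.sum_congr rfl fun u _ => ?_
      rw [Finset.mul_sum]
      refine Finset.sum_congr rfl fun j _ => ?_
      simp only [hβ, Fin.init_snoc, Fin.snoc_last]
      rw [mul_add, ee_add]
    have hbd : ‖∑ j : Fin N, ee (ξ * (ρ ^ n * x j))‖ ≤ N := by
      refine (norm_sum_le _ _).trans ?_
      simp [norm_ee]
    have hMN : (0 : ℝ) < (N : ℝ) ^ (n + 1) := by positivity
    have hnorm : ‖PP (fun v => β v + ρ ^ (n + 1) * τ v) ξ‖ ≤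
        ‖dev β τ (ρ ^ (n + 1)) ξ‖ / (N : ℝ) ^ (n + 1) +
        ‖phi (ξ * ρ ^ (n + 1))‖ * ‖PP B ξ‖ := by
      unfold PP
      rw [hsum, hprod, norm_div, norm_div, norm_pow, norm_pow, Complex.norm_natCast]
      have h2 : ‖dev β τ (ρ ^ (n + 1)) ξ + phi (ξ * ρ ^ (n + 1)) *
          ((∑ u, ee (ξ * B u)) * ∑ j, ee (ξ * (ρ ^ n * x j)))‖ ≤
          ‖dev β τ (ρ ^ (n + 1)) ξ‖ + ‖phi (ξ * ρ ^ (n + 1))‖ * (‖∑ u, ee (ξ * B u)‖ * N) := by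
        refine (norm_add_le _ _).trans ?_
        rw [norm_mul, norm_mul]
        gcongr
      calc _ ≤ (‖dev β τ (ρ ^ (n + 1)) ξ‖ + ‖phi (ξ * ρ ^ (n + 1))‖ *
            (‖∑ u, ee (ξ * B u)‖ * N)) / (N : ℝ) ^ (n + 1) := by gcongr
        _ = _ := by
          rw [add_div]
          congr 1
          rw [pow_succ (N : ℝ) n]
          field_simp
    have hΛ0 : 0 ≤ Real.log (ρ⁻¹ ^ A / θ) := by
      apply Real.log_nonneg
      rw [le_div_iff₀ hθ0, one_mul]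
      exact hθ1.trans (one_le_pow₀ hρi)
    have h160 : 0 ≤ Real.log 16 := Real.log_nonneg (by norm_num)
    have hlog : Real.log (16 * ρ⁻¹ ^ (A * (n + 1)) / θ ^ (n + 1)) =
        Real.log 16 + (n + 1) * Real.log (ρ⁻¹ ^ A / θ) := by
      have h2 : 16 * ρ⁻¹ ^ (A * (n + 1)) / θ ^ (n + 1) = 16 * (ρ⁻¹ ^ A / θ) ^ (n + 1) := by
        rw [pow_mul, div_pow]; ring
      rw [h2, Real.log_mul (by norm_num) (by positivity), Real.log_pow]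
      push_cast
      ring
    have hdivbd : ‖dev β τ (ρ ^ (n + 1)) ξ‖ / (N : ℝ) ^ (n + 1) ≤ LL ρ θ A * θ ^ (n + 1) := by
      rw [div_le_iff₀ hMN]
      refine h1.trans ?_
      rw [hlog]
      unfold LL
      set Λ := Real.log (ρ⁻¹ ^ A / θ) with hΛ
      have h3 : ((n : ℝ) + 1) ≤ (N * θ ^ 2) ^ (n + 1) := by
        have h4 : ((n + 1 : ℕ) : ℝ) ≤ (2 : ℝ) ^ (n + 1) := by
          exact_mod_cast (Nat.lt_two_pow_self (n := n + 1)).le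
        push_cast at h4
        refine h4.trans ?_
        gcongr
        linarith
      have h5 : (Real.log 16 + (n + 1) * Λ) ≤ (n + 1) * (Real.log 16 + Λ) := by
        have : (0 : ℝ) ≤ n := Nat.cast_nonneg n
        nlinarith
      have h6 : 2 * (Real.log 16 + (n + 1) * Λ) / θ ^ (n + 1) ≤
          2 * (Real.log 16 + Λ) * θ ^ (n + 1) * (N : ℝ) ^ (n + 1) := by
        rw [div_le_iff₀ hw0]
        have h7 : (N * θ ^ 2) ^ (n + 1) = θ ^ (n + 1) * (N : ℝ) ^ (n + 1) * θ ^ (n + 1) := by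
          rw [mul_pow, ← pow_mul]; ring
        calc 2 * (Real.log 16 + (n + 1) * Λ) ≤ 2 * ((n + 1) * (Real.log 16 + Λ)) := by linarith
          _ ≤ 2 * ((N * θ ^ 2) ^ (n + 1) * (Real.log 16 + Λ)) := by
              gcongr
          _ = _ := by rw [h7]; ring
      calc 10 * θ ^ (n + 1) * (N : ℝ) ^ (n + 1) + 2 * (Real.log 16 + (n + 1) * Λ) / θ ^ (n + 1)
          ≤ 10 * θ ^ (n + 1) * (N : ℝ) ^ (n + 1) +
            2 * (Real.log 16 + Λ) * θ ^ (n + 1) * (N : ℝ) ^ (n + 1) := by linarith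
        _ = _ := by ring
    linarith

lemma bound_step {ρ : ℝ} (hρ0 : 0 < ρ) (hρ : ρ ≤ 1 / 3) {n : ℕ} {b b' y : ℝ}
    (hy : y ∈ Icc (0 : ℝ) 1) (h1 : 0 ≤ b' - b - ρ ^ n * y) (h2 : b' - b - ρ ^ n * y ≤ ρ ^ (n + 1)) :
    0 ≤ b' - b ∧ b' - b ≤ 2 * ρ ^ n - 2 * ρ ^ (n + 1) := by
  have hρn : 0 < ρ ^ n := by positivity
  have h3 : 0 ≤ ρ ^ n * y := mul_nonneg hρn.le hy.1
  have h4 : ρ ^ n * y ≤ ρ ^ n := mul_le_of_le_one_right hρn.le hy.2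
  rw [pow_succ] at h2 ⊢
  have h5 : 3 * (ρ ^ n * ρ) ≤ ρ ^ n := by nlinarith
  constructor <;> linarith

theorem cantor {N : ℕ} (x : Fin N → ℝ) (hx : ∀ j, x j ∈ Icc (0 : ℝ) 1) {ρ θ : ℝ}
    (hρ0 : 0 < ρ) (hρ : ρ ≤ 1 / 3) (hθ0 : 0 < θ) (hθ1 : θ ≤ 1) (hN : 16 ≤ N * θ ^ 2) (A : ℕ) :
    ∃ B : ∀ n : ℕ, (Fin n → Fin N) → ℝ, (∀ v, B 0 v = 0) ∧
      (∀ n (v : Fin (n + 1) → Fin N),
        0 ≤ B (n + 1) v - B n (Fin.init v) - ρ ^ n * x (v (Fin.last n)) ∧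
        B (n + 1) v - B n (Fin.init v) - ρ ^ n * x (v (Fin.last n)) ≤ ρ ^ (n + 1)) ∧
      ∀ (n : ℕ) (ξ : ℝ), |ξ| ≤ ρ⁻¹ ^ (A * (n + 1)) →
        ‖PP (B (n + 1)) ξ‖ ≤ ‖phi (ξ * ρ ^ (n + 1))‖ * ‖PP (B n) ξ‖ + LL ρ θ A * θ ^ (n + 1) := by
  let S : ℕ → Type := fun n => {B : (Fin n → Fin N) → ℝ // ∀ v, 0 ≤ B v ∧ B v ≤ 2 - 2 * ρ ^ n}
  have step : ∀ n (b : S n), ∃ b' : S (n + 1),
      (∀ v, 0 ≤ b'.1 v - b.1 (Fin.init v) - ρ ^ n * x (v (Fin.last n)) ∧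
        b'.1 v - b.1 (Fin.init v) - ρ ^ n * x (v (Fin.last n)) ≤ ρ ^ (n + 1)) ∧
      ∀ ξ : ℝ, |ξ| ≤ ρ⁻¹ ^ (A * (n + 1)) →
        ‖PP b'.1 ξ‖ ≤ ‖phi (ξ * ρ ^ (n + 1))‖ * ‖PP b.1 ξ‖ + LL ρ θ A * θ ^ (n + 1) := by
    intro n b
    obtain ⟨B', h1, h2⟩ := cantor_step x hx hρ0 hρ hθ0 hθ1 hN A n b.1 b.2
    refine ⟨⟨B', fun v => ?_⟩, h1, h2⟩
    have h3 := bound_step hρ0 hρ (hx _) (h1 v).1 (h1 v).2
    have h4 := b.2 (Fin.init v)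
    constructor <;> linarith [h3.1, h3.2, h4.1, h4.2]
  choose f hf using step
  let b0 : S 0 := ⟨fun _ => 0, fun _ => by simp⟩
  let B : ∀ n, S n := fun n => Nat.rec b0 f n
  exact ⟨fun n => (B n).1, fun _ => rfl, fun n v => (hf n (B n)).1 v, fun n => (hf n (B n)).2⟩

end Pool.Agent.K3h5.FD
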