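import Pool.Agent.K3h5.FD.Defs

/-!
# Counting cells of a set of reals at the scales `q ^ (-i)`
-/

open MeasureTheory Set Filter Topology
open scoped ENNReal NNReal

namespace Pool.Agent.K3h5.FD

/-- index of the cell of side `1/Q` containing `x` -/
noncomputable def cell (Q : ℕ) (x : ℝ) : ℕ := ⌊x * Q⌋₊

open Classical in
/-- cells of side `1/Q` that meet `E` -/
noncomputable def cells (E : Set ℝ) (Q : ℕ) : Finset ℕ :=
  (Finset.range (Q + 1)).filter (fun m => ∃ x ∈ E, cell Q x = m)

open Classical in
/-- cells of side `1/Q` with two points of `E` at distance at least `1/(qQ)` -/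
noncomputable def good (E : Set ℝ) (q Q : ℕ) : Finset ℕ :=
  (Finset.range (Q + 1)).filter (fun m => ∃ l ∈ E, ∃ r ∈ E, cell Q l = m ∧ cell Q r = m ∧
    1 / ((q : ℝ) * Q) ≤ r - l)

lemma cell_le {E : Set ℝ} (hE : E ⊆ Icc 0 1) {x : ℝ} (hx : x ∈ E) (Q : ℕ) :
    cell Q x ≤ Q := by
  unfold cell
  refine Nat.floor_le_of_le ?_
  have := (hE hx).2
  nlinarith [Nat.cast_nonneg (α := ℝ) Q]

lemma mem_cells {E : Set ℝ} (hE : E ⊆ Icc 0 1) {x : ℝ} (hx : x ∈ E) (Q : ℕ) :
    cell Q x ∈ cells E Q := by
  classical
  unfold cells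
  rw [Finset.mem_filter, Finset.mem_range]
  exact ⟨Nat.lt_succ_of_le (cell_le hE hx Q), x, hx, rfl⟩

lemma cell_div {q : ℕ} (hq : 0 < q) (Q : ℕ) (x : ℝ) : cell (q * Q) x / q = cell Q x := by
  unfold cell
  rw [← Nat.floor_div_natCast]
  congr 1
  push_cast
  have : (q : ℝ) ≠ 0 := by positivity
  field_simp

lemma lt_cell_add_one {Q : ℕ} (x : ℝ) : x * Q < cell Q x + 1 := Nat.lt_floor_add_one _

lemma cell_le_mul {E : Set ℝ} (hE : E ⊆ Icc 0 1) {x : ℝ} (hx : x ∈ E) {Q : ℕ} :
    (cell Q x : ℝ) ≤ x * Q :=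
  Nat.floor_le (mul_nonneg (hE hx).1 (Nat.cast_nonneg _))

lemma card_cells_mul_le {E : Set ℝ} (hE : E ⊆ Icc 0 1) {q Q : ℕ} (hq : 0 < q) (hQ : 0 < Q) :
    (cells E (q * Q)).card ≤ 2 * (cells E Q).card + q * (good E q Q).card := by
  classical
  have hmaps : ∀ m ∈ cells E (q * Q), m / q ∈ cells E Q := by
    intro m hm
    unfold cells at hm
    rw [Finset.mem_filter] at hm
    obtain ⟨-, x, hx, rfl⟩ := hm
    rw [cell_div hq]
    exact mem_cells hE hx Q
  rw [Finset.card_eq_sum_card_fiberwise hmaps]
  have hb : ∀ m ∈ cells E Q, ((cells E (q * Q)).filter (fun a => a / q = m)).card ≤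
      2 + (if m ∈ good E q Q then q else 0) := by
    intro m hm
    by_cases hg : m ∈ good E q Q
    · rw [if_pos hg]
      have : ((cells E (q * Q)).filter (fun a => a / q = m)) ⊆ Finset.Ico (q * m) (q * m + q) := by
        intro a ha
        rw [Finset.mem_filter] at ha
        rw [Finset.mem_Ico]
        have h2 := ha.2
        have h3 := Nat.div_add_mod a q
        have h4 := Nat.mod_lt a hq
        rw [h2] at h3
        omega
      calc _ ≤ (Finset.Ico (q * m) (q * m + q)).card := Finset.card_le_card this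
        _ = q := by simp
        _ ≤ _ := by omega
    · rw [if_neg hg]
      rcases Finset.eq_empty_or_nonempty ((cells E (q * Q)).filter (fun a => a / q = m))
        with h0 | h0
      · rw [h0]; simp
      · set F := (cells E (q * Q)).filter (fun a => a / q = m) with hF
        have hsub : F ⊆ {F.min' h0, F.min' h0 + 1} := by
          intro a ha
          have hmin : F.min' h0 ≤ a := Finset.min'_le _ _ ha
          have hminm := Finset.min'_mem F h0
          rw [Finset.mem_insert, Finset.mem_singleton]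
          by_contra hcon
          push Not at hcon
          have h2 : F.min' h0 + 2 ≤ a := by omega
          apply hg
          generalize F.min' h0 = b at *
          rw [hF, Finset.mem_filter] at ha hminm
          unfold cells at ha hminm
          rw [Finset.mem_filter] at ha hminm
          obtain ⟨⟨-, x, hx, hxa⟩, ha2⟩ := ha
          obtain ⟨⟨-, y, hy, hyb⟩, hb2⟩ := hminm
          unfold good
          rw [Finset.mem_filter, Finset.mem_range]
          have hcx : cell Q x = m := by rw [← cell_div hq, hxa, ha2]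
          have hcy : cell Q y = m := by rw [← cell_div hq, hyb, hb2]
          refine ⟨?_, y, hy, x, hx, hcy, hcx, ?_⟩
          · have := cell_le hE hx Q
            omega
          · have e1 : (a : ℝ) ≤ x * ((q : ℝ) * Q) := by
              have := cell_le_mul hE hx (Q := q * Q)
              rw [hxa] at this
              push_cast at this
              exact this
            have e2 : y * ((q : ℝ) * Q) < b + 1 := by
              have := lt_cell_add_one (Q := q * Q) y
              rw [hyb] at this
              push_cast at this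
              exact this
            have e3 : (b : ℝ) + 2 ≤ a := by exact_mod_cast h2
            have hpos : (0 : ℝ) < (q : ℝ) * Q := by positivity
            rw [div_le_iff₀ hpos]
            nlinarith
        calc F.card ≤ ({F.min' h0, F.min' h0 + 1} : Finset ℕ).card := Finset.card_le_card hsub
          _ ≤ 2 := Finset.card_le_two
          _ ≤ 2 + 0 := le_refl _
  calc _ ≤ ∑ m ∈ cells E Q, (2 + (if m ∈ good E q Q then q else 0)) := Finset.sum_le_sum hb
    _ = 2 * (cells E Q).card + ∑ m ∈ cells E Q, (if m ∈ good E q Q then q else 0) := by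
        rw [Finset.sum_add_distrib, Finset.sum_const, smul_eq_mul, mul_comm]
    _ ≤ 2 * (cells E Q).card + q * (good E q Q).card := by
        gcongr
        rw [← Finset.sum_filter, Finset.sum_const, smul_eq_mul, mul_comm]
        gcongr
        intro a ha
        exact (Finset.mem_filter.1 ha).2

/-- if the number of cells of side `q ^ (-i)` is at most `C q ^ (i s)` for all `i` then the
Hausdorff dimension is at most `s` -/
lemma dimH_le_of_cells {E : Set ℝ} (hE : E ⊆ Icc 0 1) {q : ℕ} (hq : 2 ≤ q) {s : ℝ} (hs : 0 ≤ s)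
    {C : ℝ} (h : ∀ i : ℕ, ((cells E (q ^ i)).card : ℝ) ≤ C * ((q : ℝ) ^ i) ^ s) :
    dimH E ≤ ENNReal.ofReal s := by
  have hq0 : (0 : ℝ) < q := by positivity
  have hlim : Tendsto (fun i : ℕ => ENNReal.ofReal ((1 / (q : ℝ)) ^ i)) atTop (𝓝 0) := by
    rw [← ENNReal.ofReal_zero]
    refine ENNReal.tendsto_ofReal ?_
    refine tendsto_pow_atTop_nhds_zero_of_lt_one (by positivity) ?_
    rw [div_lt_one hq0]
    exact_mod_cast hq
  have hC : 0 ≤ C := by
    have := (Nat.cast_nonneg _).trans (h 0)
    simpa using this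
  have hd : ∀ i : ℕ, ∀ m : (cells E (q ^ i)), Metric.ediam {x | x ∈ E ∧ cell (q ^ i) x = m} ≤
      ENNReal.ofReal ((1 / (q : ℝ)) ^ i) := by
    intro i m
    refine Metric.ediam_le fun x hx y hy => ?_
    rw [edist_dist, Real.dist_eq]
    refine ENNReal.ofReal_le_ofReal ?_
    have hpos : (0 : ℝ) < (q : ℝ) ^ i := by positivity
    have hx1 := cell_le_mul hE hx.1 (Q := q ^ i)
    have hx2 := lt_cell_add_one (Q := q ^ i) x
    have hy1 := cell_le_mul hE hy.1 (Q := q ^ i)
    have hy2 := lt_cell_add_one (Q := q ^ i) y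
    rw [hx.2] at hx1 hx2
    rw [hy.2] at hy1 hy2
    push_cast at hx1 hx2 hy1 hy2
    rw [one_div, inv_pow, ← one_div, le_div_iff₀ hpos, ← abs_of_pos hpos, ← abs_mul, abs_le]
    constructor <;> nlinarith
  have hcov : ∀ i : ℕ, E ⊆ ⋃ m : (cells E (q ^ i)), {x | x ∈ E ∧ cell (q ^ i) x = m} := by
    intro i x hx
    rw [mem_iUnion]
    exact ⟨⟨cell (q ^ i) x, mem_cells hE hx _⟩, hx, rfl⟩
  have hle : μH[s] E ≤ ENNReal.ofReal C := by
    refine (Measure.hausdorffMeasure_le_liminf_sum s E (fun i : ℕ =>
      ENNReal.ofReal ((1 / (q : ℝ)) ^ i)) hlim (fun i (m : (cells E (q ^ i))) =>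
      {x | x ∈ E ∧ cell (q ^ i) x = m}) (Eventually.of_forall hd)
      (Eventually.of_forall hcov)).trans ?_
    refine liminf_le_of_le (by isBoundedDefault) ?_
    intro b hb
    obtain ⟨i, hi⟩ := hb.exists
    refine hi.trans ?_
    calc ∑ m : (cells E (q ^ i)), Metric.ediam {x | x ∈ E ∧ cell (q ^ i) x = m} ^ s
        ≤ ∑ _m : (cells E (q ^ i)), ENNReal.ofReal (((1 / (q : ℝ)) ^ i) ^ s) := by
          refine Finset.sum_le_sum fun m _ => ?_
          rw [← ENNReal.ofReal_rpow_of_nonneg (by positivity) hs]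
          exact ENNReal.rpow_le_rpow (hd i m) hs
      _ = ENNReal.ofReal ((cells E (q ^ i)).card * ((1 / (q : ℝ)) ^ i) ^ s) := by
          rw [Finset.sum_const, Finset.card_univ, Fintype.card_coe, nsmul_eq_mul,
            ENNReal.ofReal_mul (by positivity), ENNReal.ofReal_natCast]
      _ ≤ ENNReal.ofReal C := by
          refine ENNReal.ofReal_le_ofReal ?_
          have hpos : (0 : ℝ) < (q : ℝ) ^ i := by positivity
          calc _ ≤ (C * ((q : ℝ) ^ i) ^ s) * ((1 / (q : ℝ)) ^ i) ^ s := by
                gcongr; exact h i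
            _ = C * (((q : ℝ) ^ i) ^ s * ((1 / (q : ℝ)) ^ i) ^ s) := by ring
            _ = C := by
                rw [← Real.mul_rpow (by positivity) (by positivity), ← mul_pow,
                  mul_one_div_cancel hq0.ne', one_pow, Real.one_rpow, mul_one]
  have h3 : μH[((⟨s, hs⟩ : ℝ≥0) : ℝ)] E ≠ ∞ := ne_top_of_le_ne_top ENNReal.ofReal_ne_top hle
  have h4 := dimH_le_of_hausdorffMeasure_ne_top h3
  refine h4.trans (le_of_eq ?_)
  rw [ENNReal.ofReal, Real.toNNReal_of_nonneg hs]
  rfl

/-- many good cells at some scale -/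
lemma exists_many_good {E : Set ℝ} (hE : E ⊆ Icc 0 1) {q : ℕ} (hq : 2 ≤ q) {s : ℝ} (hs : 0 < s)
    (hqs : 4 ≤ (q : ℝ) ^ s) (hd : ENNReal.ofReal s < dimH E) (K : ℝ) :
    ∃ i : ℕ, K * ((q : ℝ) ^ i) ^ s ≤ (good E q (q ^ i)).card := by
  classical
  by_contra hcon
  push Not at hcon
  have hq0 : (0 : ℝ) < q := by positivity
  set C : ℝ := max 2 (q * |K|) with hC
  have hC2 : 2 ≤ C := le_max_left _ _
  have hCK : q * |K| ≤ C := le_max_right _ _
  have key : ∀ i : ℕ, ((cells E (q ^ i)).card : ℝ) ≤ C * ((q : ℝ) ^ i) ^ s := by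
    intro i
    induction i with
    | zero =>
      have h1 : (cells E (q ^ 0)).card ≤ 2 := by
        unfold cells
        refine (Finset.card_filter_le _ _).trans ?_
        simp
      have h2 : ((cells E (q ^ 0)).card : ℝ) ≤ 2 := by exact_mod_cast h1
      simpa using h2.trans hC2
    | succ i ih =>
      have h1 := card_cells_mul_le hE (q := q) (Q := q ^ i) (by omega) (by positivity)
      have h2 : ((cells E (q ^ (i + 1))).card : ℝ) ≤ 2 * (cells E (q ^ i)).card +
          q * (good E q (q ^ i)).card := by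
        rw [pow_succ, mul_comm (q ^ i) q]
        exact_mod_cast h1
      have h3 := (hcon i).le
      set X : ℝ := ((q : ℝ) ^ i) ^ s with hX
      have hXpos : 0 < X := by positivity
      have h4 : ((q : ℝ) ^ (i + 1)) ^ s = X * (q : ℝ) ^ s := by
        rw [pow_succ, Real.mul_rpow (by positivity) (by positivity)]
      rw [h4]
      have h5 : K ≤ |K| := le_abs_self K
      calc ((cells E (q ^ (i + 1))).card : ℝ) ≤ 2 * (cells E (q ^ i)).card +
          q * (good E q (q ^ i)).card := h2
        _ ≤ 2 * (C * X) + q * (|K| * X) := by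
            have : (good E q (q ^ i)).card ≤ |K| * X := h3.trans (by gcongr)
            gcongr
        _ = (2 * C + q * |K|) * X := by ring
        _ ≤ (4 * C) * X := by gcongr; linarith
        _ ≤ C * (X * (q : ℝ) ^ s) := by nlinarith [mul_pos (show 0 < C by linarith) hXpos]
  exact absurd (dimH_le_of_cells hE hq hs.le key) (not_le.2 hd)

end Pool.Agent.K3h5.FD
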