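import Mathlib

/-!
# Choosing translations that make exponential sums small

The method of exponential moments, in the form of a potential function.
-/

open MeasureTheory Set Filter Topology ProbabilityTheory

namespace Pool.Agent.K3h5.FD

lemma hoeff (Y : ℝ → ℝ) (hY : Continuous Y) (h0 : ∫ t in (0 : ℝ)..1, Y t = 0)
    (hb : ∀ t ∈ Icc (0 : ℝ) 1, |Y t| ≤ 2) (lam : ℝ) :
    ∫ t in Icc (0 : ℝ) 1, Real.exp (lam * Y t) ≤ Real.exp (2 * lam ^ 2) := by
  set μ : Measure ℝ := volume.restrict (Icc (0 : ℝ) 1) with hμ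
  haveI : IsProbabilityMeasure μ := ⟨by simp [hμ]⟩
  have hc : μ[Y] = 0 := by
    rw [hμ, integral_Icc_eq_integral_Ioc, ← intervalIntegral.integral_of_le zero_le_one]
    exact h0
  have hb' : ∀ᵐ ω ∂μ, Y ω ∈ Icc (-2 : ℝ) 2 := by
    rw [hμ]
    refine (ae_restrict_iff' measurableSet_Icc).2 (Eventually.of_forall fun t ht => ?_)
    exact abs_le.1 (hb t ht)
  have h := (hasSubgaussianMGF_of_mem_Icc_of_integral_eq_zero hY.aemeasurable hb' hc).mgf_le lam
  unfold mgf at h
  refine h.trans (le_of_eq ?_)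
  congr 1
  have h4 : ‖(2 : ℝ) - (-2)‖ = 4 := by
    rw [Real.norm_eq_abs]; norm_num
  push_cast
  rw [h4]
  ring

lemma choice_step {G : Type} [Fintype G] (w : G → ℝ) (hw : ∀ g, 0 ≤ w g) (Y : G → ℝ → ℝ)
    (hc : ∀ g, Continuous (Y g)) (h0 : ∀ g, ∫ t in (0 : ℝ)..1, Y g t = 0)
    (hb : ∀ g, ∀ t ∈ Icc (0 : ℝ) 1, |Y g t| ≤ 2) (lam : ℝ) :
    ∃ t ∈ Icc (0 : ℝ) 1, ∑ g, w g * Real.exp (lam * Y g t) ≤ Real.exp (2 * lam ^ 2) * ∑ g, w g := by
  have hcont : Continuous fun t => ∑ g, w g * Real.exp (lam * Y g t) := by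
    refine continuous_finsetSum _ fun g _ => ?_
    exact continuous_const.mul (Real.continuous_exp.comp (continuous_const.mul (hc g)))
  obtain ⟨t, ht, hle⟩ := exists_le_setAverage (μ := volume) (s := Icc (0 : ℝ) 1)
    (f := fun t => ∑ g, w g * Real.exp (lam * Y g t)) (by simp) (by simp)
    (hcont.continuousOn.integrableOn_Icc)
  refine ⟨t, ht, hle.trans ?_⟩
  rw [setAverage_eq]
  have h1 : volume.real (Icc (0 : ℝ) 1) = 1 := by simp
  rw [h1, inv_one, one_smul]
  rw [integral_finsetSum _ (fun g _ => by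
    exact ((continuous_const.mul (Real.continuous_exp.comp
      (continuous_const.mul (hc g)))).continuousOn.integrableOn_Icc)), Finset.mul_sum]
  refine Finset.sum_le_sum fun g _ => ?_
  rw [integral_const_mul, mul_comm]
  exact mul_le_mul_of_nonneg_right (hoeff (Y g) (hc g) (h0 g) (hb g) lam) (hw g)

lemma choice {ι G : Type} [Fintype ι] [Fintype G] (Y : ι → G → ℝ → ℝ)
    (hc : ∀ i g, Continuous (Y i g)) (h0 : ∀ i g, ∫ t in (0 : ℝ)..1, Y i g t = 0)
    (hb : ∀ i g, ∀ t ∈ Icc (0 : ℝ) 1, |Y i g t| ≤ 2) (lam : ℝ) :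
    ∃ τ : ι → ℝ, (∀ i, τ i ∈ Icc (0 : ℝ) 1) ∧
      ∑ g, Real.exp (lam * ∑ i, Y i g (τ i)) ≤
        Fintype.card G * Real.exp (2 * lam ^ 2 * Fintype.card ι) := by
  classical
  have key : ∀ s : Finset ι, ∃ τ : ι → ℝ, (∀ i, τ i ∈ Icc (0 : ℝ) 1) ∧
      ∑ g, Real.exp (lam * ∑ i ∈ s, Y i g (τ i)) ≤
        Fintype.card G * Real.exp (2 * lam ^ 2 * s.card) := by
    intro s
    induction s using Finset.induction_on with
    | empty =>
      refine ⟨fun _ => 0, fun _ => by simp, ?_⟩
      simp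
    | insert a s ha ih =>
      obtain ⟨τ, hτ, hle⟩ := ih
      obtain ⟨t, ht, hle2⟩ := choice_step (fun g => Real.exp (lam * ∑ i ∈ s, Y i g (τ i)))
        (fun g => (Real.exp_pos _).le) (Y a) (hc a) (h0 a) (hb a) lam
      refine ⟨Function.update τ a t, ?_, ?_⟩
      · intro i
        by_cases h : i = a
        · subst h; rw [Function.update_self]; exact ht
        · rw [Function.update_of_ne h]; exact hτ i
      · calc ∑ g, Real.exp (lam * ∑ i ∈ insert a s, Y i g (Function.update τ a t i))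
            = ∑ g, Real.exp (lam * ∑ i ∈ s, Y i g (τ i)) * Real.exp (lam * Y a g t) := by
              refine Finset.sum_congr rfl fun g _ => ?_
              rw [Finset.sum_insert ha, Function.update_self, ← Real.exp_add]
              congr 1
              have hsum : ∑ i ∈ s, Y i g (Function.update τ a t i) = ∑ i ∈ s, Y i g (τ i) := by
                refine Finset.sum_congr rfl fun i hi => ?_
                have hne : i ≠ a := by
                  intro h
                  subst h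
                  exact ha hi
                rw [Function.update_of_ne hne]
              rw [hsum]
              ring
          _ ≤ Real.exp (2 * lam ^ 2) * ∑ g, Real.exp (lam * ∑ i ∈ s, Y i g (τ i)) := hle2
          _ ≤ Real.exp (2 * lam ^ 2) * (Fintype.card G * Real.exp (2 * lam ^ 2 * s.card)) := by
              gcongr
          _ = Fintype.card G * Real.exp (2 * lam ^ 2 * (insert a s).card) := by
              rw [Finset.card_insert_of_notMem ha]
              push_cast
              rw [mul_left_comm, ← Real.exp_add]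
              congr 2
              ring
  obtain ⟨τ, hτ, hle⟩ := key Finset.univ
  exact ⟨τ, hτ, hle⟩

/-- `e^{ix}` -/
noncomputable def ee (x : ℝ) : ℂ := Complex.exp (x * Complex.I)

lemma norm_ee (x : ℝ) : ‖ee x‖ = 1 := Complex.norm_exp_ofReal_mul_I x

lemma ee_add (x y : ℝ) : ee (x + y) = ee x * ee y := by
  unfold ee
  rw [← Complex.exp_add]
  push_cast
  ring_nf

lemma norm_ee_sub_le (x y : ℝ) : ‖ee x - ee y‖ ≤ |x - y| := by
  have h : ee x = ee y * ee (x - y) := by rw [← ee_add]; ring_nf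
  rw [h]
  have : ee y * ee (x - y) - ee y = ee y * (ee (x - y) - 1) := by ring
  rw [this, norm_mul, norm_ee, one_mul]
  unfold ee
  rw [mul_comm]
  exact (Real.norm_exp_I_mul_ofReal_sub_one_le).trans (le_of_eq (Real.norm_eq_abs _))

lemma continuous_ee : Continuous ee := by unfold ee; fun_prop

/-- the average of `e^{iut}` over `t ∈ [0,1]` -/
noncomputable def phi (u : ℝ) : ℂ := ∫ t in (0 : ℝ)..1, ee (u * t)

lemma norm_phi_le_one (u : ℝ) : ‖phi u‖ ≤ 1 := by
  unfold phi
  have := intervalIntegral.norm_integral_le_of_norm_le_const (a := (0 : ℝ)) (b := 1) (C := 1)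
    (f := fun t => ee (u * t)) (fun t _ => (norm_ee _).le)
  simpa using this

lemma norm_phi_le (u : ℝ) (hu : 0 < |u|) : ‖phi u‖ ≤ 2 / |u| := by
  have hu0 : u ≠ 0 := abs_pos.1 hu
  have hI : (u : ℂ) * Complex.I ≠ 0 := mul_ne_zero (by exact_mod_cast hu0) Complex.I_ne_zero
  have h1 : phi u = (Complex.exp ((u * Complex.I) * (1 : ℝ)) -
      Complex.exp ((u * Complex.I) * (0 : ℝ))) / (u * Complex.I) := by
    unfold phi ee
    rw [← integral_exp_mul_complex hI]
    refine intervalIntegral.integral_congr fun t _ => ?_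
    congr 1
    push_cast
    ring
  rw [h1, norm_div, norm_mul, Complex.norm_I, mul_one, Complex.norm_real, Real.norm_eq_abs]
  gcongr
  refine (norm_sub_le _ _).trans ?_
  have e1 : ‖Complex.exp ((u * Complex.I) * (1 : ℝ))‖ = 1 := by
    have := norm_ee u
    unfold ee at this
    simpa using this
  have e2 : ‖Complex.exp ((u * Complex.I) * (0 : ℝ))‖ = 1 := by simp
  rw [e1, e2]
  norm_num

lemma norm_phi_sub_le (u v : ℝ) : ‖phi u - phi v‖ ≤ |u - v| := by
  unfold phi
  rw [← intervalIntegral.integral_sub]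
  · have := intervalIntegral.norm_integral_le_of_norm_le_const (a := (0 : ℝ)) (b := 1)
      (C := |u - v|) (f := fun t => ee (u * t) - ee (v * t)) (fun t ht => by
        rw [uIoc_of_le zero_le_one] at ht
        refine (norm_ee_sub_le _ _).trans ?_
        rw [← sub_mul, abs_mul, abs_of_pos ht.1]
        exact mul_le_of_le_one_right (abs_nonneg _) ht.2)
    simpa using this
  · exact (continuous_ee.comp (by fun_prop)).intervalIntegrable _ _
  · exact (continuous_ee.comp (by fun_prop)).intervalIntegrable _ _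

/-- the deviation of a translated exponential sum from its mean -/
noncomputable def dev {ι : Type} [Fintype ι] (β τ : ι → ℝ) (r ξ : ℝ) : ℂ :=
  ∑ i, ee (ξ * β i) * (ee (ξ * r * τ i) - phi (ξ * r))

lemma dev_lip {ι : Type} [Fintype ι] (β τ : ι → ℝ) (hβ : ∀ i, |β i| ≤ 2)
    (hτ : ∀ i, τ i ∈ Icc (0 : ℝ) 1) {r : ℝ} (hr0 : 0 ≤ r) (hr1 : r ≤ 1) (ξ ξ' : ℝ) :
    ‖dev β τ r ξ - dev β τ r ξ'‖ ≤ Fintype.card ι * (6 * |ξ - ξ'|) := by
  unfold dev
  rw [← Finset.sum_sub_distrib]
  refine (norm_sum_le _ _).trans ?_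
  calc _ ≤ ∑ _i : ι, 6 * |ξ - ξ'| := by
        refine Finset.sum_le_sum fun i _ => ?_
        have h1 : ‖ee (ξ * β i) - ee (ξ' * β i)‖ ≤ 2 * |ξ - ξ'| := by
          refine (norm_ee_sub_le _ _).trans ?_
          rw [← sub_mul, abs_mul, mul_comm]
          gcongr
          exact hβ i
        have h2 : ‖ee (ξ * r * τ i) - ee (ξ' * r * τ i)‖ ≤ |ξ - ξ'| := by
          refine (norm_ee_sub_le _ _).trans ?_
          have : ξ * r * τ i - ξ' * r * τ i = (ξ - ξ') * (r * τ i) := by ring
          rw [this, abs_mul]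
          refine mul_le_of_le_one_right (abs_nonneg _) ?_
          rw [abs_of_nonneg (mul_nonneg hr0 (hτ i).1)]
          exact mul_le_one₀ hr1 (hτ i).1 (hτ i).2
        have h3 : ‖phi (ξ * r) - phi (ξ' * r)‖ ≤ |ξ - ξ'| := by
          refine (norm_phi_sub_le _ _).trans ?_
          rw [← sub_mul, abs_mul, abs_of_nonneg hr0]
          exact mul_le_of_le_one_right (abs_nonneg _) hr1
        have e : ee (ξ * β i) * (ee (ξ * r * τ i) - phi (ξ * r)) -
            ee (ξ' * β i) * (ee (ξ' * r * τ i) - phi (ξ' * r)) =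
            (ee (ξ * β i) - ee (ξ' * β i)) * (ee (ξ * r * τ i) - phi (ξ * r)) +
            ee (ξ' * β i) * ((ee (ξ * r * τ i) - ee (ξ' * r * τ i)) -
              (phi (ξ * r) - phi (ξ' * r))) := by ring
        rw [e]
        refine (norm_add_le _ _).trans ?_
        rw [norm_mul, norm_mul, norm_ee, one_mul]
        have h4 : ‖ee (ξ * r * τ i) - phi (ξ * r)‖ ≤ 2 := by
          refine (norm_sub_le _ _).trans ?_
          rw [norm_ee]
          linarith [norm_phi_le_one (ξ * r)]
        have h5 := norm_sub_le (ee (ξ * r * τ i) - ee (ξ' * r * τ i)) (phi (ξ * r) - phi (ξ' * r))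
        have h6 : ‖ee (ξ * β i) - ee (ξ' * β i)‖ * ‖ee (ξ * r * τ i) - phi (ξ * r)‖ ≤
          (2 * |ξ - ξ'|) * 2 := mul_le_mul h1 h4 (norm_nonneg _) (by positivity)
        linarith
    _ = _ := by rw [Finset.sum_const, Finset.card_univ, nsmul_eq_mul]

/-- the four real functionals used to control a complex number -/
def prj : Fin 4 → ℂ → ℝ
  | 0, z => z.re
  | 1, z => -z.re
  | 2, z => z.im
  | 3, z => -z.im

lemma abs_prj_le (σ : Fin 4) (z : ℂ) : |prj σ z| ≤ ‖z‖ := by
  fin_cases σ <;> simp [prj, Complex.abs_re_le_norm, Complex.abs_im_le_norm]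

lemma prj_sum {ι : Type} (s : Finset ι) (σ : Fin 4) (f : ι → ℂ) :
    prj σ (∑ i ∈ s, f i) = ∑ i ∈ s, prj σ (f i) := by
  fin_cases σ <;> simp [prj, Complex.re_sum, Complex.im_sum]

lemma continuous_prj (σ : Fin 4) : Continuous (prj σ) := by
  fin_cases σ
  · exact Complex.continuous_re
  · exact Complex.continuous_re.neg
  · exact Complex.continuous_im
  · exact Complex.continuous_im.neg

lemma integral_prj (σ : Fin 4) (f : ℝ → ℂ) (hf : Continuous f) :
    ∫ t in (0 : ℝ)..1, prj σ (f t) = prj σ (∫ t in (0 : ℝ)..1, f t) := by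
  have hi : IntervalIntegrable f volume 0 1 := hf.intervalIntegrable _ _
  have h1 : ∫ t in (0 : ℝ)..1, (f t).re = (∫ t in (0 : ℝ)..1, f t).re :=
    Complex.reCLM.intervalIntegral_comp_comm hi
  have h2 : ∫ t in (0 : ℝ)..1, (f t).im = (∫ t in (0 : ℝ)..1, f t).im :=
    Complex.imCLM.intervalIntegral_comp_comm hi
  fin_cases σ
  · exact h1
  · simp only [prj]; rw [intervalIntegral.integral_neg, h1]
  · exact h2
  · simp only [prj]; rw [intervalIntegral.integral_neg, h2]

lemma norm_le_of_prj {z : ℂ} {B : ℝ} (h : ∀ σ, prj σ z ≤ B) : ‖z‖ ≤ 2 * B := by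
  have h0 := h 0
  have h1 := h 1
  have h2 := h 2
  have h3 := h 3
  simp only [prj] at h0 h1 h2 h3
  refine (Complex.norm_le_abs_re_add_abs_im z).trans ?_
  have e1 : |z.re| ≤ B := abs_le.2 ⟨by linarith, h0⟩
  have e2 : |z.im| ≤ B := abs_le.2 ⟨by linarith, h2⟩
  linarith

/-- the level lemma -/
theorem level {ι : Type} [Fintype ι] (β : ι → ℝ) (hβ : ∀ i, |β i| ≤ 2)
    {r : ℝ} (hr0 : 0 ≤ r) (hr1 : r ≤ 1) {R w : ℝ} (hR : 1 ≤ R) (hw0 : 0 < w) (hw1 : w ≤ 1) :
    ∃ τ : ι → ℝ, (∀ i, τ i ∈ Icc (0 : ℝ) 1) ∧ ∀ ξ : ℝ, |ξ| ≤ R →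
      ‖dev β τ r ξ‖ ≤ 10 * w * Fintype.card ι + 2 * Real.log (16 * R / w) / w := by
  classical
  set g : ℕ := ⌈2 * R / w⌉₊ with hg
  let pt : Fin (g + 1) → ℝ := fun j => -R + (j : ℝ) * w
  have hX : 1 ≤ R / w := by
    rw [le_div_iff₀ hw0]; linarith
  have hgle : (g : ℝ) ≤ 2 * R / w + 1 := (Nat.ceil_lt_add_one (by positivity)).le
  obtain ⟨τ, hτ, hle⟩ := choice (ι := ι) (G := Fin (g + 1) × Fin 4)
    (fun i gs t => prj gs.2 (ee (pt gs.1 * β i) * (ee (pt gs.1 * r * t) - phi (pt gs.1 * r))))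
    (fun i gs => (continuous_prj _).comp (continuous_const.mul
      ((continuous_ee.comp (by fun_prop)).sub continuous_const)))
    (fun i gs => by
      rw [integral_prj gs.2 (fun t => ee (pt gs.1 * β i) *
        (ee (pt gs.1 * r * t) - phi (pt gs.1 * r))) (continuous_const.mul
        ((continuous_ee.comp (by fun_prop)).sub continuous_const))]
      have : ∫ t in (0 : ℝ)..1, ee (pt gs.1 * β i) *
          (ee (pt gs.1 * r * t) - phi (pt gs.1 * r)) = 0 := by
        have hi1 : IntervalIntegrable (fun t : ℝ => ee (pt gs.1 * r * t)) volume 0 1 :=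
          (continuous_ee.comp (by fun_prop : Continuous fun t : ℝ =>
            pt gs.1 * r * t)).intervalIntegrable _ _
        rw [intervalIntegral.integral_const_mul, intervalIntegral.integral_sub hi1
          (continuous_const.intervalIntegrable _ _)]
        unfold phi
        simp
      rw [this]
      generalize gs.2 = σ
      fin_cases σ <;> simp [prj])
    (fun i gs t _ => by
      refine (abs_prj_le _ _).trans ?_
      rw [norm_mul, norm_ee, one_mul]
      refine (norm_sub_le _ _).trans ?_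
      rw [norm_ee]
      linarith [norm_phi_le_one (pt gs.1 * r)]) w
  refine ⟨τ, hτ, ?_⟩
  set Mc : ℝ := (Fintype.card ι : ℝ) with hMc
  have hcardG : (Fintype.card (Fin (g + 1) × Fin 4) : ℝ) ≤ 16 * R / w := by
    rw [Fintype.card_prod, Fintype.card_fin, Fintype.card_fin]
    push_cast
    have : 16 * R / w = 16 * (R / w) := by ring
    have h2 : 2 * R / w = 2 * (R / w) := by ring
    rw [this]
    rw [h2] at hgle
    nlinarith
  have hgrid : ∀ j : Fin (g + 1), ‖dev β τ r (pt j)‖ ≤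
      2 * (Real.log (16 * R / w) / w + 2 * w * Mc) := by
    intro j
    refine norm_le_of_prj fun σ => ?_
    have h1 : Real.exp (w * ∑ i, prj σ (ee (pt j * β i) *
        (ee (pt j * r * τ i) - phi (pt j * r)))) ≤
        (16 * R / w) * Real.exp (2 * w ^ 2 * Mc) := by
      refine le_trans ?_ (hle.trans ?_)
      · exact Finset.single_le_sum (f := fun gs : Fin (g + 1) × Fin 4 =>
          Real.exp (w * ∑ i, prj gs.2 (ee (pt gs.1 * β i) *
            (ee (pt gs.1 * r * τ i) - phi (pt gs.1 * r)))))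
          (fun _ _ => (Real.exp_pos _).le) (Finset.mem_univ (j, σ))
      · gcongr
    have hpos : 0 < 16 * R / w := by positivity
    rw [← Real.exp_log hpos, ← Real.exp_add, Real.exp_le_exp] at h1
    have h2 : prj σ (dev β τ r (pt j)) = ∑ i, prj σ (ee (pt j * β i) *
        (ee (pt j * r * τ i) - phi (pt j * r))) := by
      unfold dev
      rw [prj_sum]
    rw [h2]
    have h3 : Real.log (16 * R / w) / w + 2 * w * Mc =
        (Real.log (16 * R / w) + 2 * w ^ 2 * Mc) / w := by field_simp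
    rw [h3, le_div_iff₀ hw0, mul_comm]
    exact h1
  intro ξ hξ
  -- nearest grid point
  obtain ⟨j, hj⟩ : ∃ j : Fin (g + 1), |ξ - pt j| ≤ w := by
    have hξ1 := (abs_le.1 hξ).1
    have hξ2 := (abs_le.1 hξ).2
    have hnn : 0 ≤ (ξ + R) / w := div_nonneg (by linarith) hw0.le
    have hjle : ⌊(ξ + R) / w⌋₊ ≤ g := by
      rw [hg]
      refine (Nat.floor_mono ?_).trans (Nat.floor_le_ceil _)
      gcongr
      linarith
    refine ⟨⟨⌊(ξ + R) / w⌋₊, Nat.lt_succ_of_le hjle⟩, ?_⟩
    simp only [pt]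
    have h1 := Nat.floor_le hnn
    have h2 := Nat.lt_floor_add_one ((ξ + R) / w)
    rw [le_div_iff₀ hw0] at h1
    rw [div_lt_iff₀ hw0] at h2
    rw [abs_le]
    constructor <;> nlinarith
  have h1 := hgrid j
  have h2 := dev_lip β τ hβ hτ hr0 hr1 ξ (pt j)
  have h3 : ‖dev β τ r ξ‖ ≤ ‖dev β τ r ξ - dev β τ r (pt j)‖ + ‖dev β τ r (pt j)‖ := by
    have := norm_add_le (dev β τ r ξ - dev β τ r (pt j)) (dev β τ r (pt j))
    simpa using this
  have h4 : (Fintype.card ι : ℝ) * (6 * |ξ - pt j|) ≤ Mc * (6 * w) := by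
    rw [← hMc]; gcongr
  have h5 : 2 * (Real.log (16 * R / w) / w + 2 * w * Mc) =
    2 * Real.log (16 * R / w) / w + 4 * w * Mc := by ring
  rw [h5] at h1
  linarith

end Pool.Agent.K3h5.FD
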