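import Pool.Agent.K3h5.FD.Cells

/-!
# A finite configuration with an absolute margin

Midpoints of pairs of points of `E` keep an absolute distance from approximate progressions.
-/

open MeasureTheory Set Filter Topology
open scoped ENNReal NNReal

namespace Pool.Agent.K3h5.FD

theorem exists_config {k : ℕ} {ε : ℝ} (hε : 0 < ε) {E : Set ℝ} (hE : E ⊆ Icc 0 1)
    (hav : ∀ a l : ℝ, 0 < l → ∃ i < k, ∀ x ∈ E, ε * l ≤ |a + (i : ℝ) * l - x|)
    {s : ℝ} (hs : 0 < s) (hd : ENNReal.ofReal s < dimH E) (K : ℝ) :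
    ∃ (N : ℕ) (x : Fin N → ℝ) (lam η : ℝ), 0 < lam ∧ 0 < η ∧ η ≤ 1 ∧ (∀ j, x j ∈ Icc (0 : ℝ) 1) ∧
      (∀ i j, i ≠ j → 3 * lam + η ≤ |x i - x j|) ∧ K * η ^ (-s) ≤ N ∧
      (∀ a l : ℝ, lam ≤ l → ∃ i < k, ∀ j, ε * l + η ≤ |a + (i : ℝ) * l - x j|) := by
  classical
  -- choice of q
  obtain ⟨q, hq2, hqs⟩ : ∃ q : ℕ, 2 ≤ q ∧ 4 ≤ (q : ℝ) ^ s := by
    refine ⟨⌈(4 : ℝ) ^ (1 / s)⌉₊ + 2, by omega, ?_⟩
    have h1 : (4 : ℝ) ^ (1 / s) ≤ ((⌈(4 : ℝ) ^ (1 / s)⌉₊ + 2 : ℕ) : ℝ) := by
      push_cast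
      linarith [Nat.le_ceil ((4 : ℝ) ^ (1 / s))]
    calc (4 : ℝ) = ((4 : ℝ) ^ (1 / s)) ^ s := by
          rw [← Real.rpow_mul (by norm_num), one_div_mul_cancel hs.ne', Real.rpow_one]
      _ ≤ _ := Real.rpow_le_rpow (by positivity) h1 hs.le
  set M : ℕ := ⌈3 / ε⌉₊ + 2 with hM
  have hq0 : (0 : ℝ) < q := by positivity
  have hMR : 3 / ε + 1 ≤ (M : ℝ) - 1 := by
    rw [hM]; push_cast
    linarith [Nat.le_ceil (3 / ε)]
  have hM0 : (0 : ℝ) < M := by
    have : 0 < 3 / ε := by positivity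
    linarith
  obtain ⟨i, hi⟩ := exists_many_good hE hq2 hs hqs hd (M * (K * (2 * q) ^ s))
  set Q : ℕ := q ^ i with hQ
  have hQ0 : (0 : ℝ) < (q : ℝ) ^ i := by positivity
  have hQR : ((Q : ℕ) : ℝ) = (q : ℝ) ^ i := by rw [hQ]; push_cast; rfl
  set δ : ℝ := 1 / (q : ℝ) ^ i with hδ
  have hδ0 : 0 < δ := by positivity
  have hδQ : δ * (q : ℝ) ^ i = 1 := by rw [hδ]; field_simp
  set η : ℝ := δ / (2 * q) with hη
  have hη0 : 0 < η := by positivity
  have hηs : η ^ (-s) = (2 * q) ^ s * ((q : ℝ) ^ i) ^ s := by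
    rw [Real.rpow_neg hη0.le, ← Real.inv_rpow hη0.le, ← Real.mul_rpow (by positivity) hQ0.le]
    congr 1
    rw [hη, hδ]
    field_simp
  -- pigeonhole
  obtain ⟨r, hr⟩ : ∃ r ∈ Finset.range M, K * η ^ (-s) ≤
      (((good E q Q).filter (fun m => m % M = r)).card : ℝ) := by
    by_contra hcon
    push Not at hcon
    have h1 : (good E q Q).card = ∑ r ∈ Finset.range M,
        ((good E q Q).filter (fun m => m % M = r)).card := by
      refine Finset.card_eq_sum_card_fiberwise fun m _ => ?_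
      exact Finset.mem_coe.2 (Finset.mem_range.2 (Nat.mod_lt _ (by omega)))
    have h2 : ((good E q Q).card : ℝ) < M * (K * η ^ (-s)) := by
      rw [h1]
      push_cast
      calc _ < ∑ _r ∈ Finset.range M, K * η ^ (-s) := by
            refine Finset.sum_lt_sum_of_nonempty ?_ hcon
            rw [Finset.nonempty_range_iff]; omega
        _ = _ := by rw [Finset.sum_const, Finset.card_range, nsmul_eq_mul]
    rw [hηs] at h2
    have h3 : (M : ℝ) * (K * (2 * q) ^ s) * ((q : ℝ) ^ i) ^ s =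
      M * (K * ((2 * q) ^ s * ((q : ℝ) ^ i) ^ s)) := by ring
    rw [h3] at hi
    linarith
  set J : Finset ℕ := (good E q Q).filter (fun m => m % M = r) with hJ
  have hJg : ∀ m ∈ J, ∃ l ∈ E, ∃ r ∈ E, cell Q l = m ∧ cell Q r = m ∧
      1 / ((q : ℝ) * Q) ≤ r - l := by
    intro m hm
    have := (Finset.mem_filter.1 hm).1
    unfold good at this
    exact (Finset.mem_filter.1 this).2
  choose! lf hlE rf hrE hlc hrc hlr using hJg
  let e := J.equivFin.symm
  have hcellbd : ∀ m ∈ J, ∀ y ∈ E, cell Q y = m → (m : ℝ) * δ ≤ y ∧ y < (m + 1) * δ := by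
    intro m _ y hy hc
    have h1 := cell_le_mul hE hy (Q := Q)
    have h2 := lt_cell_add_one (Q := Q) y
    rw [hc, hQR] at h1 h2
    have e1 : y = y * (q : ℝ) ^ i * δ := by rw [mul_assoc, mul_comm _ δ, hδQ, mul_one]
    constructor
    · calc (m : ℝ) * δ ≤ (y * (q : ℝ) ^ i) * δ := by gcongr
        _ = y := e1.symm
    · calc y = (y * (q : ℝ) ^ i) * δ := e1
        _ < (m + 1) * δ := by gcongr
  have h1lr : ∀ m ∈ J, 2 * η ≤ rf m - lf m := by
    intro m hm
    have := hlr m hm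
    rw [hQR] at this
    calc 2 * η = 1 / ((q : ℝ) * (q : ℝ) ^ i) := by rw [hη, hδ]; field_simp
      _ ≤ _ := this
  have h2lr : ∀ m ∈ J, rf m - lf m < δ := by
    intro m hm
    have h1 := hcellbd m hm _ (hlE m hm) (hlc m hm)
    have h2 := hcellbd m hm _ (hrE m hm) (hrc m hm)
    linarith [h1.1, h2.2]
  refine ⟨J.card, fun j => (lf (e j) + rf (e j)) / 2, δ / ε, η, by positivity, hη0, ?_, ?_, ?_,
    hr.2, ?_⟩
  · rw [hη]
    have h1 : δ ≤ 1 := by
      rw [hδ]
      refine div_le_one_of_le₀ ?_ (by positivity)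
      exact one_le_pow₀ (by exact_mod_cast (by omega : 1 ≤ q))
    have h2 : (1 : ℝ) ≤ 2 * q := by
      have : (2 : ℝ) ≤ q := by exact_mod_cast hq2
      linarith
    exact (div_le_self hδ0.le h2).trans h1
  · intro j
    have h1 := hE (hlE _ (e j).2)
    have h2 := hE (hrE _ (e j).2)
    constructor <;> simp only <;> linarith [h1.1, h1.2, h2.1, h2.2]
  · intro j j' hjj
    have hne : (e j : ℕ) ≠ (e j' : ℕ) := by
      intro h
      exact hjj (e.injective (Subtype.ext h))
    have hmod : (e j : ℕ) % M = (e j' : ℕ) % M := by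
      rw [(Finset.mem_filter.1 (e j).2).2, (Finset.mem_filter.1 (e j').2).2]
    have hfar : ∀ a b : ℕ, a ≠ b → a % M = b % M → a < b → a + M ≤ b := by
      intro a b _ h hlt
      have h1 : M ∣ b - a := (Nat.modEq_iff_dvd' hlt.le).1 h
      have := Nat.le_of_dvd (by omega) h1
      omega
    have hδe : 3 * (δ / ε) + η ≤ (M - 1) * δ := by
      have h1 : η ≤ δ := by
        rw [hη]
        refine div_le_self hδ0.le ?_
        have : (2 : ℝ) ≤ q := by exact_mod_cast hq2
        linarith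
      calc 3 * (δ / ε) + η ≤ 3 * (δ / ε) + δ := by linarith
        _ = (3 / ε + 1) * δ := by ring
        _ ≤ _ := by gcongr
    have gen : ∀ a ∈ J, ∀ b ∈ J, a + M ≤ b →
        (M - 1) * δ ≤ (lf b + rf b) / 2 - (lf a + rf a) / 2 := by
      intro a ha b hb hab
      have h1 := hcellbd a ha _ (hlE a ha) (hlc a ha)
      have h2 := hcellbd a ha _ (hrE a ha) (hrc a ha)
      have h3 := hcellbd b hb _ (hlE b hb) (hlc b hb)
      have h4 := hcellbd b hb _ (hrE b hb) (hrc b hb)
      have h5 : (a : ℝ) + M ≤ b := by exact_mod_cast hab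
      nlinarith [h1.2, h2.2, h3.1, h4.1]
    rcases lt_or_gt_of_ne hne with hlt | hlt
    · have := gen _ (e j).2 _ (e j').2 (hfar _ _ hne hmod hlt)
      rw [abs_sub_comm]
      exact hδe.trans (this.trans (le_abs_self _))
    · have := gen _ (e j').2 _ (e j).2 (hfar _ _ hne.symm hmod.symm hlt)
      exact hδe.trans (this.trans (le_abs_self _))
  · intro a l hl
    have hl0 : 0 < l := lt_of_lt_of_le (by positivity) hl
    have hεl : δ ≤ ε * l := by
      calc δ = ε * (δ / ε) := by field_simp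
        _ ≤ ε * l := by gcongr
    obtain ⟨t, ht, htx⟩ := hav a l hl0
    refine ⟨t, ht, fun j => ?_⟩
    have h1 := htx _ (hlE _ (e j).2)
    have h2 := htx _ (hrE _ (e j).2)
    have h3 := h1lr _ (e j).2
    have h4 := h2lr _ (e j).2
    simp only
    generalize a + (t : ℝ) * l = p at *
    generalize lf (e j) = L at *
    generalize rf (e j) = R at *
    rcases le_or_gt p L with hp | hp
    · rw [abs_of_nonpos (by linarith)] at h1
      rw [abs_of_nonpos (by linarith)]
      linarith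
    · rcases le_or_gt R p with hp2 | hp2
      · rw [abs_of_nonneg (by linarith)] at h2
        rw [abs_of_nonneg (by linarith)]
        linarith
      · exfalso
        rw [abs_of_pos (by linarith)] at h1
        rw [abs_of_neg (by linarith)] at h2
        linarith

end Pool.Agent.K3h5.FD
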