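import Mathlib

/-!
# The decay lemma (pure real analysis)
-/

open Set Filter Topology

namespace Pool.Agent.K3h5.FD

lemma decay_step {θ L : ℝ} (hθ0 : 0 < θ) (p : ℕ → ℝ) {d c m : ℕ} (hp : p d ≤ 1) (hL : 0 ≤ L)
    (hrec : ∀ n, d ≤ n → n + 1 + c ≤ m → p (n + 1) ≤ θ / 2 * p n + L * θ ^ (n + 1)) :
    ∀ j, d + j + c ≤ m → p (d + j) ≤ θ ^ (d + j) * (2 * L + (1 / 2) ^ j * θ⁻¹ ^ d) := by
  intro j
  induction j with
  | zero =>
    intro _
    have h1 : θ ^ d * θ⁻¹ ^ d = 1 := by rw [← mul_pow, mul_inv_cancel₀ hθ0.ne', one_pow]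
    have h2 : 0 ≤ θ ^ d * (2 * L) := by positivity
    simp only [add_zero, pow_zero, one_mul]
    rw [mul_add, h1]
    linarith
  | succ j ih =>
    intro h
    have h1 := ih (by omega)
    have h2 := hrec (d + j) (by omega) (by omega)
    calc p (d + (j + 1)) = p (d + j + 1) := by rw [add_assoc]
      _ ≤ θ / 2 * p (d + j) + L * θ ^ (d + j + 1) := h2
      _ ≤ θ / 2 * (θ ^ (d + j) * (2 * L + (1 / 2) ^ j * θ⁻¹ ^ d)) + L * θ ^ (d + j + 1) := by
          gcongr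
      _ = θ ^ (d + (j + 1)) * (2 * L + (1 / 2) ^ (j + 1) * θ⁻¹ ^ d) := by ring

theorem decay {q θ L : ℝ} (hq : 1 < q) (hθ0 : 0 < θ) (hθ1 : θ < 1) (hL : 0 ≤ L) {A c : ℕ}
    (hA : 2 ≤ A) (hA2 : θ⁻¹ ≤ 2 ^ (A - 1)) (hc : 4 / θ ≤ q ^ c) :
    ∃ C : ℝ, 0 ≤ C ∧ ∀ (X : ℝ) (m : ℕ), q ^ m ≤ X → X < q ^ (m + 1) → ∀ p φ : ℕ → ℝ,
      (∀ n, 0 ≤ p n) → (∀ n, p n ≤ 1) → (∀ n, φ n ≤ 1) → (∀ n, φ n ≤ 2 * q ^ n / X) →
      (∀ n, X ≤ q ^ (A * (n + 1)) → p (n + 1) ≤ φ (n + 1) * p n + L * θ ^ (n + 1)) →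
      ∀ n, m ≤ n → p n ≤ C * θ ^ m := by
  have h1θ : 0 < 1 - θ := by linarith
  refine ⟨θ⁻¹ ^ (2 * c) + θ⁻¹ ^ c * (2 * L + 2 ^ c + L / (1 - θ)), by positivity, ?_⟩
  intro X m hm1 hm2 p φ hp0 hp1 hφ1 hφ2 hrec n hn
  have hq0 : 0 < q := by linarith
  have hX0 : 0 < X := lt_of_lt_of_le (by positivity) hm1
  obtain ⟨d, hAd, hAd'⟩ : ∃ d, A * d ≤ m ∧ m < A * (d + 1) := by
    refine ⟨m / A, Nat.mul_div_le m A, ?_⟩
    have := Nat.lt_div_mul_add (a := m) (b := A) (by omega)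
    have h2 : m / A * A = A * (m / A) := mul_comm _ _
    rw [mul_add, mul_one]
    omega
  have hθm : 0 < θ ^ m := by positivity
  by_cases hdc : d + c ≤ m
  · -- main case
    have hXle : ∀ n, d ≤ n → X ≤ q ^ (A * (n + 1)) := by
      intro n hn
      refine hm2.le.trans (pow_le_pow_right₀ hq.le ?_)
      have : A * (d + 1) ≤ A * (n + 1) := Nat.mul_le_mul_left _ (by omega)
      omega
    have hφsmall : ∀ n, n + c ≤ m → φ n ≤ θ / 2 := by
      intro n hn
      refine (hφ2 n).trans ?_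
      rw [div_le_iff₀ hX0]
      have h1 : q ^ n * (4 / θ) ≤ X := by
        calc q ^ n * (4 / θ) ≤ q ^ n * q ^ c := by gcongr
          _ = q ^ (n + c) := by rw [pow_add]
          _ ≤ q ^ m := pow_le_pow_right₀ hq.le hn
          _ ≤ X := hm1
      have h2 : 2 * q ^ n = θ / 2 * (q ^ n * (4 / θ)) := by field_simp; ring
      rw [h2]
      gcongr
    have hstep := decay_step hθ0 p (d := d) (c := c) (m := m) (hp1 d) hL (fun n hn hnm => by
      refine (hrec n (hXle n hn)).trans ?_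
      have := hφsmall (n + 1) hnm
      have h2 := mul_le_mul_of_nonneg_right this (hp0 n)
      linarith)
    set j := m - c - d with hj
    have hdj : d + j = m - c := by omega
    have h3 := hstep j (by omega)
    rw [hdj] at h3
    -- bound (1/2)^j θ⁻¹^d ≤ 2^c
    have h4 : (1 / 2 : ℝ) ^ j * θ⁻¹ ^ d ≤ 2 ^ c := by
      have h5 : θ⁻¹ ^ d ≤ (2 : ℝ) ^ ((A - 1) * d) := by
        rw [pow_mul]
        gcongr
      have h6 : (2 : ℝ) ^ ((A - 1) * d) ≤ 2 ^ (j + c) := by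
        apply pow_le_pow_right₀ (by norm_num)
        have : (A - 1) * d + d = A * d := by
          obtain ⟨A', rfl⟩ : ∃ A', A = A' + 1 := ⟨A - 1, by omega⟩
          simp only [Nat.add_sub_cancel]
          ring
        omega
      calc (1 / 2 : ℝ) ^ j * θ⁻¹ ^ d ≤ (1 / 2 : ℝ) ^ j * 2 ^ (j + c) := by
            gcongr
            exact h5.trans h6
        _ = 2 ^ c := by
            rw [pow_add, ← mul_assoc, ← mul_pow]
            norm_num
    have h7 : p (m - c) ≤ θ ^ (m - c) * (2 * L + 2 ^ c) := by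
      refine h3.trans ?_
      gcongr
    -- continue
    have h8 : ∀ i, p (m - c + i) ≤ θ ^ (m - c) * (2 * L + 2 ^ c) +
        L * θ ^ (m - c) * (∑ t ∈ Finset.range i, θ ^ (t + 1)) := by
      intro i
      induction i with
      | zero => simpa using h7
      | succ i ih =>
        have h9 := hrec (m - c + i) (hXle _ (by omega))
        have h10 : φ (m - c + i + 1) * p (m - c + i) ≤ p (m - c + i) := by
          have := mul_le_mul_of_nonneg_right (hφ1 (m - c + i + 1)) (hp0 (m - c + i))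
          linarith
        rw [Finset.sum_range_succ, ← add_assoc]
        calc p (m - c + i + 1) ≤ p (m - c + i) + L * θ ^ (m - c + i + 1) := by linarith
          _ ≤ _ := by
            have : L * θ ^ (m - c + i + 1) = L * θ ^ (m - c) * θ ^ (i + 1) := by ring
            rw [this]
            linarith
    have h11 : ∀ i, ∑ t ∈ Finset.range i, θ ^ (t + 1) ≤ 1 / (1 - θ) := by
      intro i
      have e : ∑ t ∈ Finset.range i, θ ^ (t + 1) = θ * ∑ t ∈ Finset.range i, θ ^ t := by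
        rw [Finset.mul_sum]
        exact Finset.sum_congr rfl fun t _ => by ring
      rw [e, le_div_iff₀ h1θ, mul_assoc, geom_sum_mul_neg]
      have : 0 ≤ θ ^ i := by positivity
      nlinarith
    obtain ⟨i, rfl⟩ : ∃ i, n = m - c + i := ⟨n - (m - c), by omega⟩
    have h12 := h8 i
    have h13 : L * θ ^ (m - c) * (∑ t ∈ Finset.range i, θ ^ (t + 1)) ≤
        L * θ ^ (m - c) * (1 / (1 - θ)) := by
      gcongr
      exact h11 i
    have h14 : θ ^ (m - c) = θ⁻¹ ^ c * θ ^ m := by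
      obtain ⟨e, he⟩ : ∃ e, m = c + e := ⟨m - c, by omega⟩
      rw [he]
      simp only [Nat.add_sub_cancel_left, pow_add]
      rw [← mul_assoc, ← mul_pow, inv_mul_cancel₀ hθ0.ne', one_pow, one_mul]
    have h15 : 0 ≤ θ⁻¹ ^ (2 * c) * θ ^ m := by positivity
    calc p (m - c + i) ≤ θ ^ (m - c) * (2 * L + 2 ^ c) + L * θ ^ (m - c) * (1 / (1 - θ)) := by
          linarith
      _ = θ⁻¹ ^ c * (2 * L + 2 ^ c + L / (1 - θ)) * θ ^ m := by rw [h14]; ring
      _ ≤ _ := by rw [add_mul]; linarith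
  · -- small m
    have hm : m ≤ 2 * c := by
      have h1 : 2 * d ≤ A * d := Nat.mul_le_mul_right _ hA
      omega
    have h1 : 1 ≤ θ⁻¹ ^ (2 * c) * θ ^ m := by
      have h2 : θ ^ (2 * c) ≤ θ ^ m := pow_le_pow_of_le_one hθ0.le hθ1.le hm
      have h3 : θ⁻¹ ^ (2 * c) * θ ^ (2 * c) = 1 := by
        rw [← mul_pow, inv_mul_cancel₀ hθ0.ne', one_pow]
      rw [← h3]
      gcongr
    have h4 : 0 ≤ θ⁻¹ ^ c * (2 * L + 2 ^ c + L / (1 - θ)) * θ ^ m := by positivity
    rw [add_mul]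
    linarith [hp1 n]

end Pool.Agent.K3h5.FD
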