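import Mathlib

/-!
# Fourier dimension of sets avoiding approximate arithmetic progressions: definitions

`AvoidsAP k ε E`: the set `E` of real numbers `ε`-avoids `k`-term arithmetic progressions.
-/

open MeasureTheory Set
open scoped ENNReal NNReal

namespace Pool.Agent.K3h5.FD

/-- `E` `ε`-avoids `k`-APs: for every progression `a, a + l, …, a + (k-1) l` with gap `l > 0`, the
supremum over its points `p` of the distance from `p` to `E` is at least `ε l` (the distance to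
the empty set is `∞`). -/
def AvoidsAP (k : ℕ) (ε : ℝ) (E : Set ℝ) : Prop :=
  ∀ a l : ℝ, 0 < l → ENNReal.ofReal (ε * l) ≤ ⨆ i : Fin k, Metric.infEDist (a + (i : ℝ) * l) E

/-- The supremum of the Hausdorff dimensions of bounded sets that `ε`-avoid `k`-APs. -/
noncomputable def dAP (k : ℕ) (ε : ℝ) : ℝ≥0∞ :=
  ⨆ (E : Set ℝ) (_ : Bornology.IsBounded E) (_ : AvoidsAP k ε E), dimH E

/-- The Fourier dimension of a set of real numbers: the supremum of all `s ∈ [0, 1]` for which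
some Borel probability measure `μ` with `μ E = 1` satisfies `|μ^(ξ)| ≤ C |ξ| ^ (-s/2)` for all
`ξ ≠ 0`. -/
noncomputable def dimF (E : Set ℝ) : ℝ≥0∞ :=
  ⨆ (s : ℝ) (_ : s ∈ Icc (0 : ℝ) 1) (_ : ∃ μ : Measure ℝ, IsProbabilityMeasure μ ∧ μ E = 1 ∧
    ∃ C : ℝ, ∀ ξ : ℝ, ξ ≠ 0 → ‖charFun μ ξ‖ ≤ C * |ξ| ^ (-(s / 2))), ENNReal.ofReal s

lemma avoidsAP_iff {k : ℕ} (hk : 0 < k) {ε : ℝ} (hε : 0 ≤ ε) {E : Set ℝ} :
    AvoidsAP k ε E ↔ ∀ a l : ℝ, 0 < l → ∃ i < k, ∀ x ∈ E, ε * l ≤ |a + (i : ℝ) * l - x| := by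
  have key : ∀ a l : ℝ, 0 < l → ((ENNReal.ofReal (ε * l) ≤
      ⨆ i : Fin k, Metric.infEDist (a + (i : ℝ) * l) E) ↔
      ∃ i < k, ∀ x ∈ E, ε * l ≤ |a + (i : ℝ) * l - x|) := by
    intro a l hl
    haveI : Nonempty (Fin k) := ⟨⟨0, hk⟩⟩
    obtain ⟨i, hi⟩ := exists_eq_ciSup_of_finite
      (f := fun i : Fin k => Metric.infEDist (a + (i : ℝ) * l) E)
    constructor
    · intro h
      rw [← hi] at h
      refine ⟨i, i.2, fun x hx => ?_⟩
      have h2 : ENNReal.ofReal (ε * l) ≤ edist (a + (i : ℝ) * l) x :=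
        h.trans (Metric.infEDist_le_edist_of_mem hx)
      rw [edist_dist, Real.dist_eq] at h2
      exact (ENNReal.ofReal_le_ofReal_iff (abs_nonneg _)).1 h2
    · rintro ⟨j, hj, h⟩
      refine le_trans ?_ (le_iSup (fun i : Fin k => Metric.infEDist (a + (i : ℝ) * l) E) ⟨j, hj⟩)
      refine Metric.le_infEDist.2 fun x hx => ?_
      rw [edist_dist, Real.dist_eq]
      exact ENNReal.ofReal_le_ofReal (h x hx)
  constructor
  · intro h a l hl
    exact (key a l hl).1 (h a l hl)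
  · intro h a l hl
    exact (key a l hl).2 (h a l hl)

end Pool.Agent.K3h5.FD
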