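import Pool.Agent.K3h5.FD.Cantor

/-!
# The limit set of the construction, and its avoidance property
-/

open MeasureTheory Set Filter Topology

namespace Pool.Agent.K3h5.FD

variable {N : ℕ}

/-- the first `n` digits -/
def cut (ω : ℕ → Fin N) (n : ℕ) : Fin n → Fin N := fun i => ω i

/-- the hypotheses on the construction -/
structure Cons (x : Fin N → ℝ) (ρ : ℝ) (B : ∀ n : ℕ, (Fin n → Fin N) → ℝ) : Prop where
  pos : 0 < ρ
  le : ρ ≤ 1 / 3
  mem : ∀ j, x j ∈ Icc (0 : ℝ) 1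
  lo : ∀ n (v : Fin (n + 1) → Fin N),
    0 ≤ B (n + 1) v - B n (Fin.init v) - ρ ^ n * x (v (Fin.last n))
  hi : ∀ n (v : Fin (n + 1) → Fin N),
    B (n + 1) v - B n (Fin.init v) - ρ ^ n * x (v (Fin.last n)) ≤ ρ ^ (n + 1)

/-- the limit point -/
noncomputable def lp (B : ∀ n : ℕ, (Fin n → Fin N) → ℝ) (ω : ℕ → Fin N) : ℝ :=
  ⨆ n, B n (cut ω n)

section
variable {x : Fin N → ℝ} {ρ : ℝ} {B : ∀ n : ℕ, (Fin n → Fin N) → ℝ}

lemma Cons.step (h : Cons x ρ B) (ω : ℕ → Fin N) (n : ℕ) :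
    0 ≤ B (n + 1) (cut ω (n + 1)) - B n (cut ω n) - ρ ^ n * x (ω n) ∧
    B (n + 1) (cut ω (n + 1)) - B n (cut ω n) - ρ ^ n * x (ω n) ≤ ρ ^ (n + 1) :=
  ⟨h.lo n (cut ω (n + 1)), h.hi n (cut ω (n + 1))⟩

lemma Cons.step' (h : Cons x ρ B) (ω : ℕ → Fin N) (n : ℕ) :
    0 ≤ B (n + 1) (cut ω (n + 1)) - B n (cut ω n) ∧
    B (n + 1) (cut ω (n + 1)) - B n (cut ω n) ≤ 2 * ρ ^ n - 2 * ρ ^ (n + 1) :=
  bound_step h.pos h.le (h.mem (ω n)) (h.step ω n).1 (h.step ω n).2

lemma Cons.mono (h : Cons x ρ B) (ω : ℕ → Fin N) : Monotone fun n => B n (cut ω n) :=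
  monotone_nat_of_le_succ fun n => by linarith [(h.step' ω n).1]

lemma Cons.tail (h : Cons x ρ B) (ω : ℕ → Fin N) (n i : ℕ) :
    B (n + i) (cut ω (n + i)) - B n (cut ω n) ≤ 2 * ρ ^ n - 2 * ρ ^ (n + i) := by
  induction i with
  | zero => simp
  | succ i ih =>
    have := (h.step' ω (n + i)).2
    rw [← add_assoc]
    linarith

lemma Cons.le_add (h : Cons x ρ B) (ω : ℕ → Fin N) (n m : ℕ) :
    B m (cut ω m) ≤ B n (cut ω n) + 2 * ρ ^ n := by
  have hp := h.pos
  rcases le_total m n with hmn | hmn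
  · have := h.mono ω hmn
    simp only at this
    have h2 : 0 < ρ ^ n := by positivity
    linarith
  · obtain ⟨i, rfl⟩ := Nat.exists_eq_add_of_le hmn
    have := h.tail ω n i
    have h2 : 0 < ρ ^ (n + i) := by positivity
    linarith

lemma Cons.bdd (h : Cons x ρ B) (ω : ℕ → Fin N) : BddAbove (range fun n => B n (cut ω n)) :=
  ⟨B 0 (cut ω 0) + 2 * ρ ^ 0, by rintro _ ⟨m, rfl⟩; exact h.le_add ω 0 m⟩

lemma Cons.lp_ge (h : Cons x ρ B) (ω : ℕ → Fin N) (n : ℕ) : B n (cut ω n) ≤ lp B ω :=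
  le_ciSup (h.bdd ω) n

lemma Cons.lp_le (h : Cons x ρ B) (ω : ℕ → Fin N) (n : ℕ) :
    lp B ω ≤ B n (cut ω n) + 2 * ρ ^ n :=
  ciSup_le fun m => h.le_add ω n m

lemma Cons.lp_fine (h : Cons x ρ B) (ω : ℕ → Fin N) (n : ℕ) :
    0 ≤ lp B ω - B n (cut ω n) - ρ ^ n * x (ω n) ∧
    lp B ω - B n (cut ω n) - ρ ^ n * x (ω n) ≤ 3 * ρ ^ (n + 1) := by
  have h1 := h.lp_ge ω (n + 1)
  have h2 := h.lp_le ω (n + 1)
  have h3 := h.step ω n
  constructor <;> linarith [h3.1, h3.2]

lemma continuous_cut (n : ℕ) : Continuous fun ω : ℕ → Fin N => cut ω n :=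
  continuous_pi fun i => continuous_apply (i : ℕ)

lemma Cons.continuous_lp (h : Cons x ρ B) : Continuous (lp B) := by
  refine continuous_of_uniform_approx_of_continuous fun u hu => ?_
  obtain ⟨e, he, hu'⟩ := Metric.mem_uniformity_dist.1 hu
  have hρ1 : ρ < 1 := by linarith [h.le]
  obtain ⟨n, hn⟩ := exists_pow_lt_of_lt_one (show 0 < e / 2 by positivity) hρ1
  refine ⟨fun ω => B n (cut ω n), ?_, fun ω => hu' ?_⟩
  · exact (continuous_of_discreteTopology (f := B n)).comp (continuous_cut n)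
  · rw [Real.dist_eq, abs_of_nonneg (by linarith [h.lp_ge ω n])]
    linarith [h.lp_le ω n]

theorem Cons.avoid (h : Cons x ρ B) {k : ℕ} {ε lam : ℝ} (hε0 : 0 < ε) (hε1 : ε < 1)
    (hlam : 0 < lam) (hsep : ∀ i j, i ≠ j → 3 * lam + 3 * ρ ≤ |x i - x j|)
    (hav : ∀ a l : ℝ, lam ≤ l → ∃ i < k, ∀ j, ε * l + 3 * ρ ≤ |a + (i : ℝ) * l - x j|) :
    ∀ a l : ℝ, 0 < l → ∃ i < k, ∀ y ∈ range (lp B), ε * l ≤ |a + (i : ℝ) * l - y| := by
  classical
  intro a l hl
  by_contra hcon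
  push Not at hcon
  have hρ1 : ρ < 1 := by linarith [h.le]
  have hρ0 := h.pos
  have hω : ∀ i < k, ∃ ω : ℕ → Fin N, |a + (i : ℝ) * l - lp B ω| < ε * l := by
    intro i hi
    obtain ⟨y, ⟨ω, rfl⟩, h2⟩ := hcon i hi
    exact ⟨ω, h2⟩
  obtain ⟨i0, hi0, -⟩ := hav 0 lam le_rfl
  obtain ⟨ω0, -⟩ := hω i0 hi0
  haveI : Nonempty (ℕ → Fin N) := ⟨ω0⟩
  choose! W hW using hω
  -- scale
  have hex : ∃ n : ℕ, lam * ρ ^ n ≤ l := by
    obtain ⟨n, hn⟩ := exists_pow_lt_of_lt_one (show 0 < l / lam by positivity) hρ1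
    refine ⟨n, ?_⟩
    rw [lt_div_iff₀ hlam] at hn
    linarith
  set n := Nat.find hex with hn
  have hn1 : lam * ρ ^ n ≤ l := Nat.find_spec hex
  have hn2 : ∀ j < n, l < lam * ρ ^ j := fun j hj => not_le.1 (Nat.find_min hex hj)
  -- agreement of digits
  have hagree : ∀ j ≤ n, ∀ i, i + 1 < k → ∀ t < j, W i t = W (i + 1) t := by
    intro j
    induction j with
    | zero => intro _ i _ t ht; omega
    | succ j ih =>
      intro hj i hi t ht
      rcases Nat.lt_succ_iff_lt_or_eq.1 ht with ht' | rfl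
      · exact ih (by omega) i hi t ht'
      · by_contra hne
        have hcut : cut (W i) t = cut (W (i + 1)) t := by
          funext s
          exact ih (by omega) i hi s s.2
        have h1 := h.lp_fine (W i) t
        have h2 := h.lp_fine (W (i + 1)) t
        rw [hcut] at h1
        have h3 := hsep _ _ hne
        have h4 := hW i (by omega)
        have h5 := hW (i + 1) hi
        have h6 := hn2 t (by omega)
        have hρt : 0 < ρ ^ t := by positivity
        have h7 : ρ ^ t * (3 * lam + 3 * ρ) ≤ |ρ ^ t * x (W i t) - ρ ^ t * x (W (i + 1) t)| := by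
          rw [← mul_sub, abs_mul, abs_of_pos hρt]
          gcongr
        have h8 : |ρ ^ t * x (W i t) - ρ ^ t * x (W (i + 1) t)| ≤
            |lp B (W i) - lp B (W (i + 1))| + 3 * ρ ^ (t + 1) := by
          have e : ρ ^ t * x (W i t) - ρ ^ t * x (W (i + 1) t) =
              (lp B (W i) - lp B (W (i + 1))) +
              ((lp B (W (i + 1)) - B t (cut (W (i + 1)) t) - ρ ^ t * x (W (i + 1) t)) -
                (lp B (W i) - B t (cut (W (i + 1)) t) - ρ ^ t * x (W i t))) := by ring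
          rw [e]
          refine (abs_add_le _ _).trans ?_
          gcongr
          rw [abs_le]
          constructor <;> linarith [h1.1, h1.2, h2.1, h2.2]
        have h9 : |lp B (W i) - lp B (W (i + 1))| < 3 * l := by
          have e : lp B (W i) - lp B (W (i + 1)) =
              -(a + (i : ℝ) * l - lp B (W i)) + (a + ((i + 1 : ℕ) : ℝ) * l - lp B (W (i + 1))) +
              (-l) := by push_cast; ring
          rw [e]
          refine lt_of_le_of_lt (abs_add_le _ _) ?_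
          have h10 := abs_add_le (-(a + (i : ℝ) * l - lp B (W i)))
            (a + ((i + 1 : ℕ) : ℝ) * l - lp B (W (i + 1)))
          rw [abs_neg] at h10
          rw [abs_neg, abs_of_pos hl]
          nlinarith
        have h11 : ρ ^ t * (3 * ρ) = 3 * ρ ^ (t + 1) := by ring
        nlinarith
  have hagree' : ∀ i < k, cut (W i) n = cut (W 0) n := by
    intro i
    induction i with
    | zero => intro _; rfl
    | succ i ih =>
      intro hi
      rw [← ih (by omega)]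
      funext s
      exact (hagree n le_rfl i hi s s.2).symm
  -- rescale
  have hρn : 0 < ρ ^ n := by positivity
  obtain ⟨i, hi, hix⟩ := hav ((a - B n (cut (W 0) n)) / ρ ^ n) (l / ρ ^ n) (by
    rw [le_div_iff₀ hρn]; exact hn1)
  have h1 := h.lp_fine (W i) n
  rw [hagree' i hi] at h1
  have h2 := hix (W i n)
  have h3 := hW i hi
  have e : (a - B n (cut (W 0) n)) / ρ ^ n + (i : ℝ) * (l / ρ ^ n) - x (W i n) =
      (a + (i : ℝ) * l - lp B (W i) +
        (lp B (W i) - B n (cut (W 0) n) - ρ ^ n * x (W i n))) / ρ ^ n := by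
    field_simp
    ring
  rw [e, abs_div, abs_of_pos hρn, le_div_iff₀ hρn] at h2
  have h4 := abs_add_le (a + (i : ℝ) * l - lp B (W i))
    (lp B (W i) - B n (cut (W 0) n) - ρ ^ n * x (W i n))
  rw [abs_of_nonneg h1.1] at h4
  have h5 : (ε * (l / ρ ^ n) + 3 * ρ) * ρ ^ n = ε * l + 3 * ρ ^ (n + 1) := by
    field_simp
    ring
  rw [h5] at h2
  linarith [h1.2]

end

end Pool.Agent.K3h5.FD
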