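import Pool.Agent.K3h5.FD.Measure
import Pool.Agent.K3h5.FD.Config

/-!
# Hausdorff dimension is bounded by Fourier dimension
-/

open MeasureTheory Set Filter Topology
open scoped ENNReal NNReal

namespace Pool.Agent.K3h5.FD

theorem exists_salem {k : ℕ} (hk : 0 < k) {ε : ℝ} (hε : 0 < ε) (hε1 : ε < 1) {E : Set ℝ}
    (hE : E ⊆ Icc 0 1)
    (hav : ∀ a l : ℝ, 0 < l → ∃ i < k, ∀ x ∈ E, ε * l ≤ |a + (i : ℝ) * l - x|)
    {s : ℝ} (hs : 0 < s) (hs1 : s ≤ 1) (hd : ENNReal.ofReal s < dimH E) :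
    ∃ F : Set ℝ, IsCompact F ∧ AvoidsAP k ε F ∧ ENNReal.ofReal s ≤ dimF F := by
  obtain ⟨N, x, lam, η, hlam, hη0, hη1, hx, hsep, hcard, havx⟩ :=
    exists_config hε hE hav hs hd 48
  set ρ := η / 3 with hρ
  have hρ0 : 0 < ρ := by positivity
  have hρ3 : ρ ≤ 1 / 3 := by rw [hρ]; linarith
  have hηρ : η = 3 * ρ := by rw [hρ]; ring
  have hρ1 : ρ < 1 := by linarith
  set θ := ρ ^ (s / 2) with hθ
  have hθ0 : 0 < θ := by positivity
  have hθ1 : θ ≤ 1 := Real.rpow_le_one hρ0.le hρ1.le (by positivity)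
  have hN : 16 ≤ N * θ ^ 2 := by
    have h1 : θ ^ 2 = ρ ^ s := by
      rw [hθ, ← Real.rpow_natCast (ρ ^ (s / 2)), ← Real.rpow_mul hρ0.le]
      congr 1
      push_cast
      ring
    have h2 : η ^ (-s) * ρ ^ s = ((3 : ℝ) ^ s)⁻¹ := by
      rw [hρ, Real.div_rpow hη0.le (by norm_num), Real.rpow_neg hη0.le]
      have : η ^ s ≠ 0 := by positivity
      field_simp
    have h3 : (3 : ℝ) ^ s ≤ 3 := by
      calc (3 : ℝ) ^ s ≤ (3 : ℝ) ^ (1 : ℝ) := Real.rpow_le_rpow_of_exponent_le (by norm_num) hs1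
        _ = 3 := Real.rpow_one 3
    have h4 : (3 : ℝ)⁻¹ ≤ ((3 : ℝ) ^ s)⁻¹ := inv_anti₀ (by positivity) h3
    calc (16 : ℝ) = 48 * (3 : ℝ)⁻¹ := by norm_num
      _ ≤ 48 * ((3 : ℝ) ^ s)⁻¹ := by gcongr
      _ = 48 * η ^ (-s) * ρ ^ s := by rw [mul_assoc, h2]
      _ ≤ N * ρ ^ s := by gcongr
      _ = N * θ ^ 2 := by rw [h1]
  have hN0 : N ≠ 0 := by
    rintro rfl
    simp at hN
    linarith
  haveI : NeZero N := ⟨hN0⟩
  obtain ⟨A', hA'⟩ := pow_unbounded_of_one_lt (θ⁻¹) (one_lt_two : (1 : ℝ) < 2)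
  obtain ⟨B, -, hB1, hB2⟩ := cantor x hx hρ0 hρ3 hθ0 hθ1 hN (A' + 2)
  have hcons : Cons x ρ B := ⟨hρ0, hρ3, hx, fun n v => (hB1 n v).1, fun n v => (hB1 n v).2⟩
  refine ⟨range (lp B), isCompact_range hcons.continuous_lp, ?_, ?_⟩
  · refine (avoidsAP_iff hk hε.le).2 ?_
    refine hcons.avoid hε hε1 hlam ?_ ?_
    · intro i j hij
      rw [← hηρ]
      exact hsep i j hij
    · intro a l hl
      rw [← hηρ]
      exact havx a l hl
  · refine hcons.dimF_range hs hs1 (A := A' + 2) (by omega) ?_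
      (LL_nonneg hρ0 hρ3 hθ0 hθ1 (A' + 2)) hB2
    refine hA'.le.trans (pow_le_pow_right₀ (by norm_num) (by omega))

theorem dAP_le {k : ℕ} (hk : 0 < k) {ε : ℝ} (hε : 0 < ε) (hε1 : ε < 1) :
    dAP k ε ≤ ⨆ (E : Set ℝ) (_ : MeasurableSet E) (_ : AvoidsAP k ε E), dimF E := by
  unfold dAP
  refine iSup_le fun E => iSup_le fun hbd => iSup_le fun hav => ?_
  refine le_of_forall_lt fun c hc => ?_
  have hd1 : dimH E ≤ 1 := by
    refine (dimH_mono (subset_univ E)).trans ?_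
    rw [Real.dimH_univ]
  -- it suffices to produce, for every c < dimH E, a set of Fourier dimension at least c
  obtain ⟨c', hcc', hc'⟩ := exists_between hc
  have hc'1 : c' < 1 := lt_of_lt_of_le hc' hd1
  have hc'top : c' ≠ ⊤ := (hc'1.trans ENNReal.one_lt_top).ne
  set s := c'.toReal with hs
  have hcs : ENNReal.ofReal s = c' := ENNReal.ofReal_toReal hc'top
  have hc'0 : c' ≠ 0 := (lt_of_le_of_lt bot_le hcc').ne'
  have hs0 : 0 < s := ENNReal.toReal_pos hc'0 hc'top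
  have hs1 : s ≤ 1 := by
    have := (ENNReal.toReal_lt_toReal hc'top ENNReal.one_ne_top).2 hc'1
    rw [ENNReal.toReal_one] at this
    exact this.le
  obtain ⟨R, hR0, hR⟩ : ∃ R : ℝ, 0 < R ∧ ∀ x ∈ E, |x| ≤ R := by
    obtain ⟨R, hR⟩ := hbd.exists_norm_le
    exact ⟨max R 1, by positivity, fun x hx => (hR x hx).trans (le_max_left _ _)⟩
  set f : ℝ → ℝ := fun x => (x + R) / (2 * R) with hf
  set g : ℝ → ℝ := fun y => 2 * R * y - R with hg
  have hgf : ∀ x, g (f x) = x := by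
    intro x
    simp only [hf, hg]
    field_simp
    ring
  have hE1 : f '' E ⊆ Icc 0 1 := by
    rintro _ ⟨x, hx, rfl⟩
    have := abs_le.1 (hR x hx)
    simp only [hf]
    constructor
    · apply div_nonneg <;> linarith [this.1]
    · rw [div_le_one (by positivity)]; linarith [this.2]
  have hav' := (avoidsAP_iff hk hε.le).1 hav
  have hav1 : ∀ a l : ℝ, 0 < l → ∃ i < k, ∀ x ∈ f '' E, ε * l ≤ |a + (i : ℝ) * l - x| := by
    intro a l hl
    obtain ⟨i, hi, hix⟩ := hav' (2 * R * a - R) (2 * R * l) (by positivity)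
    refine ⟨i, hi, ?_⟩
    rintro _ ⟨x, hx, rfl⟩
    have h1 := hix x hx
    have h2 : 2 * R * a - R + (i : ℝ) * (2 * R * l) - x =
        2 * R * (a + (i : ℝ) * l - f x) := by
      simp only [hf]
      field_simp
      ring
    rw [h2, abs_mul, abs_of_pos (by positivity : 0 < 2 * R)] at h1
    have h3 : ε * (2 * R * l) = 2 * R * (ε * l) := by ring
    rw [h3] at h1
    exact le_of_mul_le_mul_left h1 (by positivity)
  have hdim : dimH E ≤ dimH (f '' E) := by
    have h1 : E = g '' (f '' E) := by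
      rw [← image_comp]
      ext x
      simp [hgf]
    have h2 : LipschitzWith (Real.toNNReal (2 * R)) g := by
      refine LipschitzWith.of_dist_le_mul fun x y => ?_
      rw [Real.dist_eq, Real.dist_eq, Real.coe_toNNReal _ (by positivity)]
      have : g x - g y = 2 * R * (x - y) := by simp only [hg]; ring
      rw [this, abs_mul, abs_of_pos (by positivity : 0 < 2 * R)]
    conv_lhs => rw [h1]
    exact h2.dimH_image_le _
  obtain ⟨F, hF1, hF2, hF3⟩ := exists_salem hk hε hε1 hE1 hav1 hs0 hs1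
    (by rw [hcs]; exact lt_of_lt_of_le hc' hdim)
  rw [hcs] at hF3
  refine lt_of_lt_of_le hcc' (hF3.trans ?_)
  exact le_iSup_of_le F (le_iSup_of_le hF1.measurableSet (le_iSup_of_le hF2 le_rfl))

end Pool.Agent.K3h5.FD
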