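import Pool.Agent.K3h5.FD.Limit
import Pool.Agent.K3h5.FD.Decay
import Pool.Agent.K3h5.FD.Defs

/-!
# The measure on the limit set and its Fourier decay
-/

open MeasureTheory Set Filter Topology
open scoped ENNReal NNReal

namespace Pool.Agent.K3h5.FD

variable {N : ℕ}

/-- the uniform measure on `Fin N` -/
noncomputable def um (N : ℕ) [NeZero N] : Measure (Fin N) := (PMF.uniformOfFintype (Fin N)).toMeasure

instance (N : ℕ) [NeZero N] : IsProbabilityMeasure (um N) := by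
  unfold um; infer_instance

lemma um_singleton (N : ℕ) [NeZero N] (j : Fin N) : um N {j} = (N : ℝ≥0∞)⁻¹ := by
  unfold um
  rw [PMF.toMeasure_apply_singleton _ _ (measurableSet_singleton j)]
  simp

/-- the coin tossing measure -/
noncomputable def ct (N : ℕ) [NeZero N] : Measure (ℕ → Fin N) :=
  Measure.infinitePi fun _ : ℕ => um N

instance (N : ℕ) [NeZero N] : IsProbabilityMeasure (ct N) := by
  unfold ct; infer_instance

lemma ct_cyl [NeZero N] {n : ℕ} (v : Fin n → Fin N) :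
    ct N {ω | cut ω n = v} = (N : ℝ≥0∞)⁻¹ ^ n := by
  classical
  have h1 : {ω : ℕ → Fin N | cut ω n = v} =
      Set.pi (Finset.range n) (fun i => if h : i < n then {v ⟨i, h⟩} else univ) := by
    ext ω
    simp only [mem_setOf_eq, Set.mem_pi, Finset.coe_range, mem_Iio]
    constructor
    · rintro rfl i hi
      simp [hi, cut]
    · intro h
      funext i
      have := h i i.2
      simpa [cut] using this
  rw [h1]
  unfold ct
  rw [Measure.infinitePi_pi _ (fun i _ => MeasurableSet.of_discrete)]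
  rw [Finset.prod_congr rfl (g := fun _ => (N : ℝ≥0∞)⁻¹), Finset.prod_const, Finset.card_range]
  intro i hi
  rw [dif_pos (Finset.mem_range.1 hi), um_singleton]

lemma integral_cut [NeZero N] {n : ℕ} (F : (Fin n → Fin N) → ℂ) :
    ∫ ω, F (cut ω n) ∂(ct N) = (∑ v, F v) / (N : ℂ) ^ n := by
  have hm : Measurable fun ω : ℕ → Fin N => cut ω n := (continuous_cut n).measurable
  have h1 : ∫ ω, F (cut ω n) ∂(ct N) = ∫ v, F v ∂((ct N).map fun ω => cut ω n) :=
    (integral_map hm.aemeasurable (measurable_of_finite F).aestronglyMeasurable).symm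
  rw [h1, integral_fintype .of_finite, Finset.sum_div]
  refine Finset.sum_congr rfl fun v _ => ?_
  have h2 : ((ct N).map fun ω => cut ω n).real {v} = ((N : ℝ) ^ n)⁻¹ := by
    rw [measureReal_def, Measure.map_apply hm (measurableSet_singleton v)]
    have : (fun ω : ℕ → Fin N => cut ω n) ⁻¹' {v} = {ω | cut ω n = v} := rfl
    rw [this, ct_cyl]
    simp
  rw [h2, div_eq_inv_mul]
  rw [Complex.real_smul]
  push_cast
  ring

section
variable {x : Fin N → ℝ} {ρ : ℝ} {B : ∀ n : ℕ, (Fin n → Fin N) → ℝ}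

lemma charFun_eq_ee (μ : Measure ℝ) (ξ : ℝ) : charFun μ ξ = ∫ y, ee (ξ * y) ∂μ := by
  rw [charFun_apply_real]
  unfold ee
  refine integral_congr_ae (Eventually.of_forall fun y => ?_)
  simp

lemma Cons.charFun_close [NeZero N] (h : Cons x ρ B) (ξ : ℝ) (n : ℕ) :
    ‖charFun ((ct N).map (lp B)) ξ - PP (B n) ξ‖ ≤ |ξ| * (2 * ρ ^ n) := by
  have hm : Measurable (lp B) := h.continuous_lp.measurable
  have h1 : charFun ((ct N).map (lp B)) ξ = ∫ ω, ee (ξ * lp B ω) ∂(ct N) := by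
    rw [charFun_eq_ee, integral_map hm.aemeasurable]
    exact (continuous_ee.comp (by fun_prop)).aestronglyMeasurable
  have h2 : PP (B n) ξ = ∫ ω, ee (ξ * B n (cut ω n)) ∂(ct N) := by
    rw [integral_cut (fun v => ee (ξ * B n v))]
    rfl
  have hi1 : Integrable (fun ω => ee (ξ * lp B ω)) (ct N) := by
    refine Integrable.of_bound (C := 1) ?_ (Eventually.of_forall fun ω => (norm_ee _).le)
    exact (continuous_ee.comp (continuous_const.mul h.continuous_lp)).aestronglyMeasurable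
  have hi2 : Integrable (fun ω => ee (ξ * B n (cut ω n))) (ct N) := by
    refine Integrable.of_bound (C := 1) ?_ (Eventually.of_forall fun ω => (norm_ee _).le)
    exact (continuous_ee.comp (continuous_const.mul
      ((continuous_of_discreteTopology (f := B n)).comp (continuous_cut n)))).aestronglyMeasurable
  rw [h1, h2, ← integral_sub hi1 hi2]
  have h3 := norm_integral_le_of_norm_le_const (μ := ct N)
    (f := fun ω => ee (ξ * lp B ω) - ee (ξ * B n (cut ω n))) (C := |ξ| * (2 * ρ ^ n))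
    (Eventually.of_forall fun ω => by
      refine (norm_ee_sub_le _ _).trans ?_
      rw [← mul_sub, abs_mul]
      gcongr
      rw [abs_of_nonneg (by linarith [h.lp_ge ω n])]
      linarith [h.lp_le ω n])
  simpa using h3

lemma norm_PP_le_one [NeZero N] {n : ℕ} (B : (Fin n → Fin N) → ℝ) (ξ : ℝ) : ‖PP B ξ‖ ≤ 1 := by
  have hN : (0 : ℝ) < N := by exact_mod_cast Nat.pos_of_ne_zero (NeZero.ne N)
  unfold PP
  rw [norm_div, norm_pow, Complex.norm_natCast, div_le_one (by positivity)]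
  refine (norm_sum_le _ _).trans ?_
  simp [norm_ee]

theorem Cons.fourier_decay [NeZero N] (h : Cons x ρ B) {σ : ℝ} (hσ : 0 < σ) {A : ℕ} (hA : 2 ≤ A)
    (hA2 : (ρ ^ σ)⁻¹ ≤ 2 ^ (A - 1)) {L : ℝ} (hL : 0 ≤ L)
    (hrec : ∀ (n : ℕ) (ξ : ℝ), |ξ| ≤ ρ⁻¹ ^ (A * (n + 1)) →
      ‖PP (B (n + 1)) ξ‖ ≤ ‖phi (ξ * ρ ^ (n + 1))‖ * ‖PP (B n) ξ‖ + L * (ρ ^ σ) ^ (n + 1)) :
    ∃ C : ℝ, ∀ ξ : ℝ, ξ ≠ 0 → ‖charFun ((ct N).map (lp B)) ξ‖ ≤ C * |ξ| ^ (-σ) := by
  have hρ0 := h.pos
  have hρ1 : ρ < 1 := by linarith [h.le]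
  have hm : Measurable (lp B) := h.continuous_lp.measurable
  haveI : IsProbabilityMeasure ((ct N).map (lp B)) := Measure.isProbabilityMeasure_map hm.aemeasurable
  set θ := ρ ^ σ with hθ
  have hθ0 : 0 < θ := by positivity
  have hθ1 : θ < 1 := Real.rpow_lt_one hρ0.le hρ1 hσ
  have hq : 1 < ρ⁻¹ := (one_lt_inv₀ hρ0).2 hρ1
  obtain ⟨c, hc⟩ := pow_unbounded_of_one_lt (4 / θ) hq
  obtain ⟨C, hC0, hC⟩ := decay hq hθ0 hθ1 hL hA hA2 hc.le
  refine ⟨max 1 (C * θ⁻¹), fun ξ hξ => ?_⟩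
  have hX0 : 0 < |ξ| := abs_pos.2 hξ
  rcases lt_or_ge |ξ| 1 with h1 | h1
  · have h2 : 1 ≤ |ξ| ^ (-σ) := Real.one_le_rpow_of_pos_of_le_one_of_nonpos hX0 h1.le (by linarith)
    have h3 := norm_charFun_le_one (μ := (ct N).map (lp B)) (t := ξ)
    have h4 : (1 : ℝ) ≤ max 1 (C * θ⁻¹) := le_max_left _ _
    nlinarith
  · obtain ⟨m, hm1, hm2⟩ := exists_nat_pow_near h1 hq
    have hp := hC |ξ| m hm1 hm2 (fun n => ‖PP (B n) ξ‖) (fun n => ‖phi (ξ * ρ ^ n)‖)
      (fun n => norm_nonneg _) (fun n => norm_PP_le_one _ _) (fun n => norm_phi_le_one _)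
      (fun n => by
        have h2 : 0 < |ξ * ρ ^ n| := by rw [abs_mul]; positivity
        refine (norm_phi_le _ h2).trans (le_of_eq ?_)
        rw [abs_mul, abs_of_pos (by positivity : 0 < ρ ^ n), inv_pow]
        field_simp)
      (fun n hn => hrec n ξ hn)
    have h3 : ‖charFun ((ct N).map (lp B)) ξ‖ ≤ C * θ ^ m := by
      have h4 : Tendsto (fun n : ℕ => C * θ ^ m + |ξ| * (2 * ρ ^ n)) atTop
          (𝓝 (C * θ ^ m + |ξ| * (2 * 0))) :=
        tendsto_const_nhds.add (tendsto_const_nhds.mul (tendsto_const_nhds.mul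
          (tendsto_pow_atTop_nhds_zero_of_lt_one hρ0.le hρ1)))
      have h5 := ge_of_tendsto h4 (b := ‖charFun ((ct N).map (lp B)) ξ‖) (by
        filter_upwards [eventually_ge_atTop m] with n hn
        have h6 := h.charFun_close ξ n
        have h7 := norm_add_le (charFun ((ct N).map (lp B)) ξ - PP (B n) ξ) (PP (B n) ξ)
        rw [sub_add_cancel] at h7
        have h8 := hp n hn
        linarith)
      simpa using h5
    have h4 : θ ^ (m + 1) ≤ |ξ| ^ (-σ) := by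
      have h5 : θ ^ (m + 1) = (ρ⁻¹ ^ (m + 1)) ^ (-σ) := by
        rw [hθ, ← Real.rpow_natCast (ρ ^ σ), ← Real.rpow_mul hρ0.le, ← Real.rpow_natCast ρ⁻¹,
          ← Real.rpow_mul (by positivity), Real.inv_rpow hρ0.le, ← Real.rpow_neg hρ0.le]
        congr 1
        ring
      rw [h5]
      exact Real.rpow_le_rpow_of_nonpos hX0 hm2.le (by linarith)
    calc ‖charFun ((ct N).map (lp B)) ξ‖ ≤ C * θ ^ m := h3
      _ = C * θ⁻¹ * θ ^ (m + 1) := by rw [pow_succ]; field_simp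
      _ ≤ C * θ⁻¹ * |ξ| ^ (-σ) := by gcongr
      _ ≤ max 1 (C * θ⁻¹) * |ξ| ^ (-σ) := by
          gcongr
          exact le_max_right _ _

theorem Cons.dimF_range [NeZero N] (h : Cons x ρ B) {s : ℝ} (hs0 : 0 < s) (hs1 : s ≤ 1) {A : ℕ}
    (hA : 2 ≤ A) (hA2 : (ρ ^ (s / 2))⁻¹ ≤ 2 ^ (A - 1)) {L : ℝ} (hL : 0 ≤ L)
    (hrec : ∀ (n : ℕ) (ξ : ℝ), |ξ| ≤ ρ⁻¹ ^ (A * (n + 1)) →
      ‖PP (B (n + 1)) ξ‖ ≤ ‖phi (ξ * ρ ^ (n + 1))‖ * ‖PP (B n) ξ‖ + L * (ρ ^ (s / 2)) ^ (n + 1)) :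
    ENNReal.ofReal s ≤ dimF (range (lp B)) := by
  obtain ⟨C, hC⟩ := h.fourier_decay (by positivity : 0 < s / 2) hA hA2 hL hrec
  have hm : Measurable (lp B) := h.continuous_lp.measurable
  have hK : IsCompact (range (lp B)) := isCompact_range h.continuous_lp
  unfold dimF
  refine le_iSup_of_le s (le_iSup_of_le ⟨hs0.le, hs1⟩ (le_iSup_of_le ?_ le_rfl))
  refine ⟨(ct N).map (lp B), Measure.isProbabilityMeasure_map hm.aemeasurable, ?_, C, hC⟩
  rw [Measure.map_apply hm hK.measurableSet]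
  have : lp B ⁻¹' range (lp B) = univ := by ext ω; simp
  rw [this, measure_univ]

end

end Pool.Agent.K3h5.FD
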