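import Pool.Agent.K3h5.FD.Defs
import Pool.Agent.H744R2.Falc.Energy

/-!
# Fourier dimension is bounded by Hausdorff dimension
-/

open MeasureTheory Set Filter Topology
open scoped ENNReal NNReal

namespace Pool.Agent.K3h5.FD

lemma charFun_eq_int (μ : Measure ℝ) (ξ : ℝ) :
    ∫ u, Complex.exp (((ξ * u : ℝ) : ℂ) * Complex.I) ∂μ = charFun μ ξ := by
  rw [charFun_apply_real]
  refine integral_congr_ae (Eventually.of_forall fun y => ?_)
  simp

theorem gauss_bound (μ : Measure ℝ) [IsProbabilityMeasure μ] {C t : ℝ} (ht1 : t < 1)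
    (hC : ∀ ξ : ℝ, 0 < ξ → ‖charFun μ ξ‖ ^ 2 ≤ C * ξ ^ (-t)) :
    ∃ C2 : ℝ, 0 ≤ C2 ∧ ∀ b : ℝ, 0 < b →
      ∫ p : ℝ × ℝ, Real.exp (-((p.1 - p.2) ^ 2 / (4 * b))) ∂(μ.prod μ) ≤ C2 * b ^ (t / 2) := by
  have hC0 : 0 ≤ C := by
    have := hC 1 one_pos
    rw [Real.one_rpow, mul_one] at this
    exact (by positivity : 0 ≤ ‖charFun μ 1‖ ^ 2).trans this
  have hG : 0 < Real.Gamma ((-t + 1) / 2) := Real.Gamma_pos_of_pos (by linarith)
  refine ⟨C * Real.Gamma ((-t + 1) / 2) / Real.sqrt Real.pi, by positivity, fun b hb => ?_⟩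
  have h := Pool.Agent.H744R2.Falc.A5_gauss μ b hb
  simp_rw [charFun_eq_int] at h
  set f : ℝ → ℝ := fun ξ => ‖charFun μ ξ‖ ^ 2 * Real.exp (-b * ξ ^ 2) with hf
  have heven : ∀ ξ, f |ξ| = f ξ := by
    intro ξ
    simp only [hf, sq_abs]
    rcases abs_choice ξ with h1 | h1
    · rw [h1]
    · rw [h1, charFun_neg, RCLike.norm_conj]
  have h1 : ∫ ξ, f ξ = 2 * ∫ ξ in Ioi 0, f ξ := by
    rw [← integral_comp_abs]
    exact integral_congr_ae (Eventually.of_forall fun ξ => (heven ξ).symm)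
  have hcont : Continuous f := by
    have : Continuous fun ξ : ℝ => charFun μ ξ := by
      have := Pool.Agent.H744R2.Falc.A5_meas μ
      simp_rw [charFun_eq_int] at this
      exact this
    simp only [hf]
    fun_prop
  have hfi : Integrable f := by
    refine (integrable_exp_neg_mul_sq hb).mono' hcont.aestronglyMeasurable ?_
    refine Eventually.of_forall fun ξ => ?_
    have h2 := norm_charFun_le_one (μ := μ) (t := ξ)
    rw [Real.norm_of_nonneg (by positivity)]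
    simp only [hf]
    refine mul_le_of_le_one_left (Real.exp_nonneg _) ?_
    exact pow_le_one₀ (norm_nonneg _) h2
  have h2 : ∫ ξ in Ioi 0, f ξ ≤ ∫ ξ in Ioi (0 : ℝ), C * (ξ ^ (-t) * Real.exp (-b * ξ ^ 2)) := by
    refine setIntegral_mono_on hfi.integrableOn ?_ measurableSet_Ioi ?_
    · exact (integrableOn_rpow_mul_exp_neg_mul_sq hb (by linarith)).const_mul C
    · intro ξ hξ
      simp only [hf]
      rw [← mul_assoc]
      exact mul_le_mul_of_nonneg_right (hC ξ hξ) (Real.exp_nonneg _)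
  have h3 : ∫ ξ in Ioi (0 : ℝ), C * (ξ ^ (-t) * Real.exp (-b * ξ ^ 2)) =
      C * (b ^ (-(-t + 1) / 2) * (1 / 2) * Real.Gamma ((-t + 1) / 2)) := by
    rw [integral_const_mul, ← integral_rpow_mul_exp_neg_mul_rpow two_pos (by linarith) hb]
    simp_rw [Real.rpow_two]
  rw [h1] at h
  have hsq : Real.sqrt (Real.pi / b) = Real.sqrt Real.pi * b ^ (-(1 / 2) : ℝ) := by
    rw [Real.sqrt_div Real.pi_pos.le, Real.sqrt_eq_rpow b, Real.rpow_neg hb.le]
    rfl
  set G := ∫ p : ℝ × ℝ, Real.exp (-((p.1 - p.2) ^ 2 / (4 * b))) ∂(μ.prod μ) with hGdef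
  have h4 : Real.sqrt Real.pi * b ^ (-(1 / 2) : ℝ) * G ≤
      C * (b ^ (-(-t + 1) / 2) * Real.Gamma ((-t + 1) / 2)) := by
    rw [← hsq, ← h]
    rw [h3] at h2
    linarith
  have h5 : b ^ (-(1 / 2) : ℝ) * b ^ (1 / 2 : ℝ) = 1 := by
    rw [← Real.rpow_add hb]; norm_num
  have h6 : b ^ (-(-t + 1) / 2) * b ^ (1 / 2 : ℝ) = b ^ (t / 2) := by
    rw [← Real.rpow_add hb]; congr 1; ring
  have hpi : 0 < Real.sqrt Real.pi := Real.sqrt_pos.2 Real.pi_pos
  calc G = (Real.sqrt Real.pi * b ^ (-(1 / 2) : ℝ) * G) * b ^ (1 / 2 : ℝ) / Real.sqrt Real.pi := by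
        rw [eq_div_iff hpi.ne']
        linear_combination (Real.sqrt Real.pi * G) * (-h5)
    _ ≤ (C * (b ^ (-(-t + 1) / 2) * Real.Gamma ((-t + 1) / 2))) * b ^ (1 / 2 : ℝ) /
          Real.sqrt Real.pi := by gcongr
    _ = C * Real.Gamma ((-t + 1) / 2) / Real.sqrt Real.pi *
          (b ^ (-(-t + 1) / 2) * b ^ (1 / 2 : ℝ)) := by ring
    _ = _ := by rw [h6]

/-- pointwise bound of the Riesz kernel by a sum of Gaussians -/
lemma riesz_le {t : ℝ} (ht : 0 < t) (x y : ℝ) :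
    (edist x y) ^ (-t) ≤ 1 + ∑' j : ℕ, ENNReal.ofReal ((2 : ℝ) ^ (t * (j + 1)) * Real.exp 1 *
      Real.exp (-((x - y) ^ 2 / (4 * (4 : ℝ)⁻¹ ^ (j + 1))))) := by
  rcases eq_or_ne x y with rfl | hne
  · refine le_of_le_of_eq le_top ?_
    symm
    rw [ENNReal.add_eq_top]
    right
    have h1 : ∑' _ : ℕ, (1 : ℝ≥0∞) = ⊤ := ENNReal.tsum_const_eq_top_of_ne_zero one_ne_zero
    rw [← top_le_iff, ← h1]
    refine ENNReal.tsum_le_tsum fun j => ?_
    rw [← ENNReal.ofReal_one]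
    apply ENNReal.ofReal_le_ofReal
    simp only [sub_self, ne_eq, OfNat.ofNat_ne_zero, not_false_eq_true, zero_pow, zero_div,
      neg_zero, Real.exp_zero, mul_one]
    have h2 : (1 : ℝ) ≤ (2 : ℝ) ^ (t * (j + 1)) := Real.one_le_rpow (by norm_num) (by positivity)
    have h3 : (1 : ℝ) ≤ Real.exp 1 := Real.one_le_exp (by norm_num)
    nlinarith
  · have hd0 : 0 < |x - y| := abs_pos.2 (sub_ne_zero.2 hne)
    have he : (edist x y) ^ (-t) = ENNReal.ofReal (|x - y| ^ (-t)) := by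
      rw [edist_dist, Real.dist_eq, ENNReal.ofReal_rpow_of_pos hd0]
    rw [he]
    rcases le_or_gt 1 |x - y| with h1 | h1
    · refine le_trans ?_ le_self_add
      rw [← ENNReal.ofReal_one]
      exact ENNReal.ofReal_le_ofReal (Real.rpow_le_one_of_one_le_of_nonpos h1 (by linarith))
    · obtain ⟨j, hj1, hj2⟩ := exists_nat_pow_near_of_lt_one hd0 h1.le
        (by norm_num : (0 : ℝ) < 2⁻¹) (by norm_num)
      refine le_trans ?_ le_add_self
      refine le_trans ?_ (ENNReal.le_tsum j)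
      apply ENNReal.ofReal_le_ofReal
      have h2 : |x - y| ^ (-t) ≤ (2 : ℝ) ^ (t * (j + 1)) := by
        calc |x - y| ^ (-t) ≤ ((2 : ℝ)⁻¹ ^ (j + 1)) ^ (-t) :=
              Real.rpow_le_rpow_of_nonpos (by positivity) hj1.le (by linarith)
          _ = (2 : ℝ) ^ (t * (j + 1)) := by
              rw [← Real.rpow_natCast, ← Real.rpow_mul (by norm_num), Real.inv_rpow (by norm_num),
                ← Real.rpow_neg (by norm_num)]
              congr 1
              push_cast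
              ring
      have h3 : (x - y) ^ 2 / (4 * (4 : ℝ)⁻¹ ^ (j + 1)) ≤ 1 := by
        rw [div_le_one (by positivity)]
        have h4 : (x - y) ^ 2 ≤ ((2 : ℝ)⁻¹ ^ j) ^ 2 := by
          rw [← sq_abs]
          exact pow_le_pow_left₀ (abs_nonneg _) hj2 2
        have h5 : ((2 : ℝ)⁻¹ ^ j) ^ 2 = 4 * (4 : ℝ)⁻¹ ^ (j + 1) := by
          have h6 : (2 : ℝ)⁻¹ ^ 2 = 4⁻¹ := by norm_num
          rw [← pow_mul, mul_comm j 2, pow_mul, h6, pow_succ]
          ring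
        linarith
      have h6 : 1 ≤ Real.exp 1 * Real.exp (-((x - y) ^ 2 / (4 * (4 : ℝ)⁻¹ ^ (j + 1)))) := by
        rw [← Real.exp_add]
        exact Real.one_le_exp (by linarith)
      have h7 : 0 < (2 : ℝ) ^ (t * (j + 1)) := by positivity
      calc |x - y| ^ (-t) ≤ (2 : ℝ) ^ (t * (j + 1)) * 1 := by rw [mul_one]; exact h2
        _ ≤ (2 : ℝ) ^ (t * (j + 1)) * (Real.exp 1 *
            Real.exp (-((x - y) ^ 2 / (4 * (4 : ℝ)⁻¹ ^ (j + 1))))) := by gcongr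
        _ = _ := by ring

theorem energy_ne_top (μ : Measure ℝ) [IsProbabilityMeasure μ] {C t t' : ℝ} (ht : 0 < t)
    (htt' : t < t') (ht1 : t' < 1) (hC : ∀ ξ : ℝ, 0 < ξ → ‖charFun μ ξ‖ ^ 2 ≤ C * ξ ^ (-t')) :
    ∫⁻ p : ℝ × ℝ, (edist p.1 p.2) ^ (-t) ∂(μ.prod μ) ≠ ⊤ := by
  obtain ⟨C2, hC20, hC2⟩ := gauss_bound μ ht1 hC
  have hmeas : ∀ j : ℕ, Measurable fun p : ℝ × ℝ =>
      ENNReal.ofReal ((2 : ℝ) ^ (t * (j + 1)) * Real.exp 1 *
        Real.exp (-((p.1 - p.2) ^ 2 / (4 * (4 : ℝ)⁻¹ ^ (j + 1))))) := by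
    intro j
    fun_prop
  have h1 : ∫⁻ p : ℝ × ℝ, (edist p.1 p.2) ^ (-t) ∂(μ.prod μ) ≤
      1 + ∑' j : ℕ, ∫⁻ p : ℝ × ℝ, ENNReal.ofReal ((2 : ℝ) ^ (t * (j + 1)) * Real.exp 1 *
        Real.exp (-((p.1 - p.2) ^ 2 / (4 * (4 : ℝ)⁻¹ ^ (j + 1))))) ∂(μ.prod μ) := by
    rw [← lintegral_tsum fun j => (hmeas j).aemeasurable]
    calc _ ≤ ∫⁻ p : ℝ × ℝ, (1 + ∑' j : ℕ, ENNReal.ofReal ((2 : ℝ) ^ (t * (j + 1)) * Real.exp 1 *
        Real.exp (-((p.1 - p.2) ^ 2 / (4 * (4 : ℝ)⁻¹ ^ (j + 1)))))) ∂(μ.prod μ) :=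
          lintegral_mono fun p => riesz_le ht p.1 p.2
      _ = _ := by
          rw [lintegral_add_left measurable_const, lintegral_one, measure_univ]
  set q : ℝ := (2 : ℝ) ^ (t - t') with hq
  have hq0 : 0 < q := by positivity
  have hq1 : q < 1 := Real.rpow_lt_one_of_one_lt_of_neg (by norm_num) (by linarith)
  have h2 : ∀ j : ℕ, ∫⁻ p : ℝ × ℝ, ENNReal.ofReal ((2 : ℝ) ^ (t * (j + 1)) * Real.exp 1 *
        Real.exp (-((p.1 - p.2) ^ 2 / (4 * (4 : ℝ)⁻¹ ^ (j + 1))))) ∂(μ.prod μ) ≤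
        ENNReal.ofReal (Real.exp 1 * C2 * q ^ (j + 1)) := by
    intro j
    have hint : Integrable (fun p : ℝ × ℝ => (2 : ℝ) ^ (t * (j + 1)) * Real.exp 1 *
        Real.exp (-((p.1 - p.2) ^ 2 / (4 * (4 : ℝ)⁻¹ ^ (j + 1))))) (μ.prod μ) := by
      refine Integrable.const_mul ?_ _
      refine Integrable.of_bound (C := 1) (by fun_prop) (Eventually.of_forall fun p => ?_)
      rw [Real.norm_of_nonneg (Real.exp_nonneg _)]
      apply Real.exp_le_one_iff.2
      have : 0 ≤ (p.1 - p.2) ^ 2 / (4 * (4 : ℝ)⁻¹ ^ (j + 1)) := by positivity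
      linarith
    rw [← ofReal_integral_eq_lintegral_ofReal hint
      (Eventually.of_forall fun p => by positivity), integral_const_mul]
    apply ENNReal.ofReal_le_ofReal
    have h3 := hC2 ((4 : ℝ)⁻¹ ^ (j + 1)) (by positivity)
    have h4 : (2 : ℝ) ^ (t * (j + 1)) * ((4 : ℝ)⁻¹ ^ (j + 1)) ^ (t' / 2) = q ^ (j + 1) := by
      rw [hq, ← Real.rpow_natCast ((2 : ℝ) ^ (t - t')), ← Real.rpow_mul (by norm_num)]
      have h5 : (4 : ℝ)⁻¹ ^ (j + 1) = (2 : ℝ) ^ (-2 * ((j : ℝ) + 1)) := by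
        rw [← Real.rpow_natCast, show (4 : ℝ)⁻¹ = (2 : ℝ) ^ (-2 : ℝ) by
          rw [Real.rpow_neg (by norm_num)]; norm_num, ← Real.rpow_mul (by norm_num)]
        push_cast
        rfl
      rw [h5, ← Real.rpow_mul (by norm_num), ← Real.rpow_add (by norm_num)]
      congr 1
      push_cast
      ring
    calc (2 : ℝ) ^ (t * (j + 1)) * Real.exp 1 * ∫ p : ℝ × ℝ,
          Real.exp (-((p.1 - p.2) ^ 2 / (4 * (4 : ℝ)⁻¹ ^ (j + 1)))) ∂(μ.prod μ)
        ≤ (2 : ℝ) ^ (t * (j + 1)) * Real.exp 1 * (C2 * ((4 : ℝ)⁻¹ ^ (j + 1)) ^ (t' / 2)) := by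
          gcongr
      _ = Real.exp 1 * C2 * ((2 : ℝ) ^ (t * (j + 1)) * ((4 : ℝ)⁻¹ ^ (j + 1)) ^ (t' / 2)) := by ring
      _ = _ := by rw [h4]
  have h3 : Summable fun j : ℕ => Real.exp 1 * C2 * q ^ (j + 1) :=
    ((summable_nat_add_iff 1).2 (summable_geometric_of_lt_one hq0.le hq1)).mul_left _
  refine ne_of_lt (lt_of_le_of_lt h1 ?_)
  refine ENNReal.add_lt_top.2 ⟨ENNReal.one_lt_top, ?_⟩
  refine lt_of_le_of_lt (ENNReal.tsum_le_tsum h2) ?_
  rw [← ENNReal.ofReal_tsum_of_nonneg (fun j => by positivity) h3]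
  exact ENNReal.ofReal_lt_top

/-- a set of positive measure for a measure of finite `α`-energy has dimension at least `α` -/
theorem le_dimH_of_energy' (μ : Measure ℝ) [IsProbabilityMeasure μ] {α : ℝ} (hα : 0 < α)
    (h : ∫⁻ p : ℝ × ℝ, (edist p.1 p.2) ^ (-α) ∂(μ.prod μ) ≠ ⊤) {F : Set ℝ}
    (hF : MeasurableSet F) (hpos : 0 < μ F) : ENNReal.ofReal α ≤ dimH F := by
  have hkm : Measurable fun p : ℝ × ℝ => (edist p.1 p.2) ^ (-α) := by
    have h1 : Measurable (fun p : ℝ × ℝ => edist p.1 p.2) := by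
      have : Continuous (fun p : ℝ × ℝ => edist p.1 p.2) := by fun_prop
      exact this.measurable
    exact h1.pow_const _
  set ψ : ℝ → ENNReal := fun a => ∫⁻ b, (edist a b) ^ (-α) ∂μ with hψ
  have hψm : Measurable ψ := hkm.lintegral_prod_right'
  rw [lintegral_prod _ hkm.aemeasurable] at h
  have hfin : ∀ᵐ a ∂μ, ψ a < ⊤ := ae_lt_top hψm h
  obtain ⟨M, hM⟩ : ∃ M : ℕ, 0 < μ (F ∩ {a | ψ a ≤ M}) := by
    by_contra hcon
    push Not at hcon
    have h1 : μ (⋃ M : ℕ, (F ∩ {a | ψ a ≤ M})) = 0 :=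
      measure_iUnion_null fun M => le_antisymm (hcon M) bot_le
    have h2 : F ≤ᵐ[μ] (⋃ M : ℕ, (F ∩ {a | ψ a ≤ M}) : Set ℝ) := by
      filter_upwards [hfin] with a ha hI
      obtain ⟨n, hn⟩ := ENNReal.exists_nat_gt ha.ne
      exact Set.mem_iUnion.2 ⟨n, hI, hn.le⟩
    have h3 := measure_mono_ae h2
    rw [h1] at h3
    exact absurd hpos (not_lt.2 h3)
  set A : Set ℝ := F ∩ {a | ψ a ≤ M} with hA
  have hAm : MeasurableSet A := hF.inter (hψm measurableSet_Iic)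
  set ν : Measure ℝ := μ.restrict A with hν
  set K : ENNReal := (M : ENNReal) + 1 with hK
  have hK0 : K ≠ 0 := by simp [hK]
  have hKt : K ≠ ⊤ := by simp [hK]
  have key : ∀ B : Set ℝ, (K⁻¹ • ν) B ≤ Metric.ediam B ^ α := by
    intro B
    rw [← Metric.ediam_closure]
    refine (measure_mono (subset_closure : B ⊆ closure B)).trans ?_
    set D := closure B with hD
    have hDm : MeasurableSet D := isClosed_closure.measurableSet
    rw [Measure.smul_apply, smul_eq_mul, hν, Measure.restrict_apply hDm]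
    by_cases hne : (D ∩ A).Nonempty
    · obtain ⟨a, haD, haA⟩ := hne
      have h1 : ψ a ≤ M := haA.2
      have h2 : Metric.ediam D ^ (-α) * μ D ≤ ψ a := by
        calc Metric.ediam D ^ (-α) * μ D
            = ∫⁻ b in D, Metric.ediam D ^ (-α) ∂μ := by rw [setLIntegral_const]
          _ ≤ ∫⁻ b in D, (edist a b) ^ (-α) ∂μ := by
              refine setLIntegral_mono' hDm fun b hb => ?_
              rw [ENNReal.rpow_neg, ENNReal.rpow_neg]
              apply ENNReal.inv_le_inv.2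
              exact ENNReal.rpow_le_rpow (Metric.edist_le_ediam_of_mem haD hb) hα.le
          _ ≤ ∫⁻ b, (edist a b) ^ (-α) ∂μ := setLIntegral_le_lintegral _ _
      have h3 : Metric.ediam D ^ (-α) * μ D ≤ K :=
        h2.trans (h1.trans (by rw [hK]; exact le_self_add))
      have h4 : μ (D ∩ A) ≤ μ D := measure_mono Set.inter_subset_left
      rw [ENNReal.rpow_neg] at h3
      rcases eq_or_ne (Metric.ediam D ^ α) ⊤ with htop | htop
      · rw [htop]; exact le_top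
      rcases eq_or_ne (Metric.ediam D ^ α) 0 with h0 | h0
      · rw [h0, ENNReal.inv_zero] at h3
        have h5 : μ D = 0 := by
          by_contra h6
          rw [ENNReal.top_mul h6] at h3
          exact hKt (top_le_iff.1 h3)
        have h6 : μ (D ∩ A) = 0 := le_antisymm (h4.trans h5.le) bot_le
        rw [h6, mul_zero]
        exact bot_le
      · have h5 : μ D ≤ Metric.ediam D ^ α * K := by
          rwa [ENNReal.inv_mul_le_iff h0 htop] at h3
        calc K⁻¹ * μ (D ∩ A) ≤ K⁻¹ * (Metric.ediam D ^ α * K) := by gcongr; exact h4.trans h5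
          _ = Metric.ediam D ^ α * (K⁻¹ * K) := by ring
          _ = Metric.ediam D ^ α := by rw [ENNReal.inv_mul_cancel hK0 hKt, mul_one]
    · rw [Set.not_nonempty_iff_eq_empty.1 hne, measure_empty, mul_zero]
      exact bot_le
  have hle : K⁻¹ • ν ≤ μH[α] :=
    Measure.le_hausdorffMeasure α (K⁻¹ • ν) 1 one_pos fun B _ => key B
  have hpos : 0 < (K⁻¹ • ν) F := by
    rw [Measure.smul_apply, smul_eq_mul, hν, Measure.restrict_apply hF]
    refine ENNReal.mul_pos (ENNReal.inv_ne_zero.2 hKt) ?_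
    have h1 : A ⊆ F ∩ A := fun a ha => ⟨ha.1, ha⟩
    exact (lt_of_lt_of_le hM (measure_mono h1)).ne'
  have h5 : μH[((α.toNNReal : NNReal) : ℝ)] F ≠ 0 := by
    rw [Real.coe_toNNReal α hα.le]
    exact (lt_of_lt_of_le hpos (hle _)).ne'
  exact le_dimH_of_hausdorffMeasure_ne_zero h5

lemma AvoidsAP.mono {k : ℕ} {ε : ℝ} {E F : Set ℝ} (h : AvoidsAP k ε E) (hFE : F ⊆ E) :
    AvoidsAP k ε F := fun a l hl =>
  (h a l hl).trans (iSup_mono fun _ => Metric.infEDist_anti hFE)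

theorem le_dAP {k : ℕ} {ε : ℝ} :
    (⨆ (E : Set ℝ) (_ : MeasurableSet E) (_ : AvoidsAP k ε E), dimF E) ≤ dAP k ε := by
  refine iSup_le fun E => iSup_le fun hE => iSup_le fun hav => ?_
  unfold dimF
  refine iSup_le fun s => iSup_le fun hs => iSup_le fun ⟨μ, hμ, hμE, C, hC⟩ => ?_
  refine le_of_forall_lt fun c hc => ?_
  obtain ⟨c', hcc', hc'⟩ := exists_between hc
  have hc'top : c' ≠ ⊤ := (hc'.trans ENNReal.ofReal_lt_top).ne
  set t := c'.toReal with ht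
  have hct : ENNReal.ofReal t = c' := ENNReal.ofReal_toReal hc'top
  have hc'0 : c' ≠ 0 := (lt_of_le_of_lt bot_le hcc').ne'
  have ht0 : 0 < t := ENNReal.toReal_pos hc'0 hc'top
  have hts : t < s := by
    rw [← hct] at hc'
    exact (ENNReal.ofReal_lt_ofReal_iff_of_nonneg ht0.le).1 hc'
  obtain ⟨t', htt', ht's⟩ := exists_between hts
  have ht'1 : t' < 1 := ht's.trans_le hs.2
  have hC' : ∀ ξ : ℝ, 0 < ξ → ‖charFun μ ξ‖ ^ 2 ≤ (max 1 C) ^ 2 * ξ ^ (-t') := by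
    intro ξ hξ
    have h1 : ‖charFun μ ξ‖ ≤ max 1 C * ξ ^ (-(t' / 2)) := by
      rcases le_or_gt ξ 1 with h2 | h2
      · have h3 := norm_charFun_le_one (μ := μ) (t := ξ)
        have h4 : 1 ≤ ξ ^ (-(t' / 2)) :=
          Real.one_le_rpow_of_pos_of_le_one_of_nonpos hξ h2 (by linarith)
        have h5 : 1 ≤ max 1 C := le_max_left _ _
        nlinarith
      · have h3 := hC ξ hξ.ne'
        rw [abs_of_pos hξ] at h3
        have h4 : ξ ^ (-(s / 2)) ≤ ξ ^ (-(t' / 2)) :=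
          Real.rpow_le_rpow_of_exponent_le h2.le (by linarith)
        have h5 : 0 < ξ ^ (-(s / 2)) := by positivity
        calc ‖charFun μ ξ‖ ≤ C * ξ ^ (-(s / 2)) := h3
          _ ≤ max 1 C * ξ ^ (-(s / 2)) := by gcongr; exact le_max_right _ _
          _ ≤ _ := by gcongr
    calc ‖charFun μ ξ‖ ^ 2 ≤ (max 1 C * ξ ^ (-(t' / 2))) ^ 2 := by gcongr
      _ = (max 1 C) ^ 2 * ξ ^ (-t') := by
        rw [mul_pow, ← Real.rpow_natCast (ξ ^ (-(t' / 2))), ← Real.rpow_mul hξ.le]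
        congr 2
        push_cast
        ring
  have hen := energy_ne_top μ ht0 htt' ht'1 hC'
  obtain ⟨n, hn⟩ : ∃ n : ℕ, 0 < μ (E ∩ Icc (-(n : ℝ)) n) := by
    by_contra hcon
    push Not at hcon
    have h1 : μ (⋃ n : ℕ, (E ∩ Icc (-(n : ℝ)) n)) = 0 :=
      measure_iUnion_null fun n => le_antisymm (hcon n) bot_le
    have h2 : E ⊆ ⋃ n : ℕ, (E ∩ Icc (-(n : ℝ)) n) := by
      intro x hx
      obtain ⟨n, hn⟩ := exists_nat_ge |x|
      exact Set.mem_iUnion.2 ⟨n, hx, abs_le.1 hn⟩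
    have h3 := measure_mono (μ := μ) h2
    rw [h1, hμE] at h3
    exact absurd h3 (by simp)
  have hdim := le_dimH_of_energy' μ ht0 hen (hE.inter measurableSet_Icc) hn
  rw [hct] at hdim
  refine lt_of_lt_of_le hcc' (hdim.trans ?_)
  unfold dAP
  refine le_iSup_of_le (E ∩ Icc (-(n : ℝ)) n) (le_iSup_of_le ?_ (le_iSup_of_le ?_ le_rfl))
  · exact (Metric.isBounded_Icc _ _).subset inter_subset_right
  · exact hav.mono inter_subset_left

end Pool.Agent.K3h5.FD
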